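import Pool.Agent.RW114.Stmts

/-!
# Project RW114: assembly
-/

set_option autoImplicit false

open scoped BigOperators ENNReal
open MeasureTheory Filter Topology Classical

namespace Pool.Agent.RW114.Assembly

open Pool.Agent.RW114

variable {V : Type}

lemma FF_finite (G : SimpleGraph V) [G.LocallyFinite] (I : Set V) (hI : I.Finite) (η : Conf G) :
    (FF G I η).Finite := by
  haveI : Finite I := hI
  haveI : ∀ x : I, Finite (G.neighborSet x.1) := fun x => inferInstance
  haveI : Finite (∀ x : I, G.neighborSet x.1) := Pi.finite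
  refine Set.Finite.of_finite_image (f := fun (ρ : Conf G) => fun x : I => ρ x.1)
    (Set.toFinite _) ?_
  intro ρ hρ ρ' hρ' h
  funext x
  by_cases hx : x ∈ I
  · exact congrFun h ⟨x, hx⟩
  · rw [hρ.1 x hx, hρ'.1 x hx]

lemma green_nonneg (G : SimpleGraph V) [G.LocallyFinite] (a x : V) : 0 ≤ green G a x := by
  apply tsum_nonneg
  intro t
  induction t generalizing x with
  | zero => simp only [prob]; split_ifs <;> norm_num
  | succ t ih =>
    simp only [prob]
    exact Finset.sum_nonneg fun y _ => div_nonneg (ih y) (Nat.cast_nonneg _)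

theorem final (hSuper : TaskSuper) (hMono : TaskMono) (hLocal : TaskLocal) (hFin : TaskFin)
    (hWalk : TaskWalk) (hLim : TaskLim) (hBall : TaskBall) (hWeak : TaskWeak) : Question := by
  intro V G _ hconn hinf τ hτ a hsum μ hμ hW
  obtain ⟨hfin, hesc⟩ := hBall V G a hconn hinf
  have hsup : ∀ (R n : ℕ) (ρ : Conf G), ∃ v, Super G τ a {x | G.dist a x < R} n ρ v :=
    fun R n ρ => hSuper V G τ a _ n ρ hτ (hfin R) (hesc _ (hfin R))
  have hmono : ∀ (R R' n m : ℕ) (ρ : Conf G) (y : V), R ≤ R' → n ≤ m →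
      odo G τ a {x | G.dist a x < R} n ρ y ≤ odo G τ a {x | G.dist a x < R'} m ρ y :=
    fun R R' n m ρ y hR hn => hMono V G τ a _ _ n m ρ
      (fun x hx => lt_of_lt_of_le (show G.dist a x < R from hx) hR) hn (hfin R') (hsup R' m ρ) y
  haveI : Countable V := by
    rw [← Set.countable_univ_iff]
    have : (Set.univ : Set V) = ⋃ R : ℕ, {x | G.dist a x < R} := by
      ext x
      simp only [Set.mem_univ, Set.mem_iUnion, Set.mem_setOf_eq, true_iff]
      exact ⟨G.dist a x + 1, Nat.lt_succ_self _⟩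
    rw [this]
    exact Set.countable_iUnion fun R => (hfin R).countable
  -- the main estimate
  have key : ∀ (y : V) (ε : ℝ), 0 < ε → ∀ᵐ ρ ∂μ, ∃ C : ℝ, 0 ≤ C ∧ ∀ n R : ℕ,
      (odo G τ a {x | G.dist a x < R} n ρ y : ℝ) ≤ (n + C) * (green G a y + ε) := by
    intro y ε hε
    have hg := green_nonneg G a y
    rw [ae_iff]
    refine le_antisymm ?_ (zero_le)
    refine ENNReal.le_of_forall_pos_le_add ?_
    intro δ hδ _
    rw [zero_add]
    obtain ⟨n₀, R₀, hn₀, hF⟩ := hFin V G τ a hτ hconn hinf hsum y ε (δ : ℝ) hε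
      (by exact_mod_cast hδ)
    set A : ℕ → Set (Conf G) := fun M => {ρ | ∃ m : ℕ, 1 ≤ m ∧ m ≤ M ∧
      (m : ℝ) * n₀ * (green G a y + ε) < odo G τ a {x | G.dist a x < M} (m * n₀) ρ y} with hA
    have hAm : Monotone A := by
      intro M M' hM ρ hρ
      obtain ⟨m, h1, h2, h3⟩ := hρ
      refine ⟨m, h1, h2.trans hM, lt_of_lt_of_le h3 ?_⟩
      exact_mod_cast hmono M M' (m * n₀) (m * n₀) ρ y hM le_rfl
    have hAle : ∀ M, μ (A M) ≤ ENNReal.ofReal (δ : ℝ) := by
      intro M
      refine (hWeak V G a hconn hinf μ hμ hW M R₀ (A M) δ (by positivity) ?_ ?_).2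
      · intro ρ ρ' h
        have : ∀ n, odo G τ a {x | G.dist a x < M} n ρ = odo G τ a {x | G.dist a x < M} n ρ' :=
          fun n => (hLocal V G τ a _ n ρ ρ' (fun x hx => h x hx)).1
        simp only [hA, Set.mem_setOf_eq, this]
      · intro R hR hMR η
        refine le_trans ?_ (hF R M η hR)
        have hfinFF := FF_finite G {x | G.dist a x < R} (hfin R) η
        have hsub : FF G {x | G.dist a x < R} η ∩ A M ⊆
            {ρ | ρ ∈ FF G {x | G.dist a x < R} η ∧ ∃ m, 1 ≤ m ∧ m ≤ M ∧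
              (m : ℝ) * n₀ * (green G a y + ε) <
                odo G τ a {x | G.dist a x < R} (m * n₀) ρ y} := by
          rintro ρ ⟨h1, m, h2, h3, h4⟩
          refine ⟨h1, m, h2, h3, lt_of_lt_of_le h4 ?_⟩
          exact_mod_cast hmono M R (m * n₀) (m * n₀) ρ y hMR le_rfl
        have := Set.ncard_le_ncard hsub (hfinFF.subset fun ρ h => h.1)
        exact_mod_cast this
    have hun : μ (⋃ M, A M) ≤ (δ : ℝ≥0∞) := by
      rw [hAm.measure_iUnion]
      refine iSup_le fun M => (hAle M).trans ?_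
      rw [ENNReal.ofReal_coe_nnreal]
    refine (measure_mono ?_).trans hun
    intro ρ hρ
    by_contra hcon
    apply hρ
    have h1 : ∀ m : ℕ, 1 ≤ m → ∀ R : ℕ,
        (odo G τ a {x | G.dist a x < R} (m * n₀) ρ y : ℝ) ≤ m * n₀ * (green G a y + ε) := by
      intro m hm R
      by_contra hlt
      rw [not_le] at hlt
      apply hcon
      rw [Set.mem_iUnion]
      refine ⟨max m R, m, hm, le_max_left _ _, lt_of_lt_of_le hlt ?_⟩
      exact_mod_cast hmono R (max m R) (m * n₀) (m * n₀) ρ y (le_max_right _ _) le_rfl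
    refine ⟨n₀, Nat.cast_nonneg _, ?_⟩
    intro n R
    have h2 := h1 (n / n₀ + 1) (Nat.le_add_left 1 _) R
    have h3 : n ≤ (n / n₀ + 1) * n₀ := by
      have := Nat.div_add_mod n n₀
      have h4 := Nat.mod_lt n hn₀
      nlinarith
    have h5 : (n / n₀ + 1) * n₀ ≤ n + n₀ := by
      have := Nat.div_mul_le_self n n₀
      nlinarith
    have h6 : (odo G τ a {x | G.dist a x < R} n ρ y : ℝ) ≤
        odo G τ a {x | G.dist a x < R} ((n / n₀ + 1) * n₀) ρ y := by
      exact_mod_cast hmono R R n ((n / n₀ + 1) * n₀) ρ y le_rfl h3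
    refine h6.trans (h2.trans ?_)
    have h7 : (((n / n₀ + 1 : ℕ) : ℝ) * n₀) ≤ n + n₀ := by exact_mod_cast h5
    exact mul_le_mul_of_nonneg_right h7 (by linarith)
  have key2 : ∀ᵐ ρ ∂μ, ∀ (y : V) (k : ℕ), ∃ C : ℝ, 0 ≤ C ∧ ∀ n R : ℕ,
      (odo G τ a {x | G.dist a x < R} n ρ y : ℝ) ≤ (n + C) * (green G a y + 1 / ((k : ℝ) + 1)) := by
    rw [ae_all_iff]
    intro y
    rw [ae_all_iff]
    intro k
    exact key y _ (by positivity)
  filter_upwards [key2] with ρ hρ
  -- deterministic part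
  have hbdd : ∀ (n : ℕ) (y : V),
      BddAbove (Set.range fun R : ℕ => odo G τ a {x | G.dist a x < R} n ρ y) := by
    intro n y
    obtain ⟨C, hC, h⟩ := hρ y 0
    refine ⟨⌊((n : ℝ) + C) * (green G a y + 1 / ((0 : ℕ) + 1 : ℝ))⌋₊, ?_⟩
    rintro _ ⟨R, rfl⟩
    exact Nat.le_floor (h n R)
  intro x
  have hle : ∀ k : ℕ, limsup (fun n : ℕ => S G τ a n ρ x / n) atTop ≤
      ENNReal.ofReal (green G a x + 1 / ((k : ℝ) + 1)) := by
    intro k
    obtain ⟨C, hC, h⟩ := hρ x k
    have hg := green_nonneg G a x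
    have hgk : 0 ≤ green G a x + 1 / ((k : ℝ) + 1) := by positivity
    have hlim : Tendsto (fun n : ℕ => ENNReal.ofReal
        (((n : ℝ) + C) * (green G a x + 1 / ((k : ℝ) + 1)) / n)) atTop
        (𝓝 (ENNReal.ofReal (green G a x + 1 / ((k : ℝ) + 1)))) := by
      apply (ENNReal.continuous_ofReal.tendsto _).comp
      have h1 : Tendsto (fun n : ℕ => (1 + C / (n : ℝ)) * (green G a x + 1 / ((k : ℝ) + 1))) atTop
          (𝓝 ((1 + 0) * (green G a x + 1 / ((k : ℝ) + 1)))) :=
        (tendsto_const_nhds.add (tendsto_const_div_atTop_nhds_zero_nat C)).mul_const _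
      rw [add_zero, one_mul] at h1
      refine h1.congr' ?_
      filter_upwards [eventually_gt_atTop 0] with n hn
      have : (n : ℝ) ≠ 0 := by exact_mod_cast hn.ne'
      field_simp
    rw [← hlim.limsup_eq]
    refine limsup_le_limsup ?_
    filter_upwards [eventually_gt_atTop 0] with n hn
    have hS := hWalk V G τ a n ρ _ (hLim V G τ a n ρ hconn hfin (fun R => hsup R n ρ)
      (fun y => hbdd n y)) x
    have hmem := Nat.sSup_mem (Set.range_nonempty
      (fun R : ℕ => odo G τ a {x | G.dist a x < R} n ρ x)) (hbdd n x)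
    obtain ⟨R, hR⟩ := hmem
    simp only at hR hS
    rw [← hR] at hS
    have hn' : (0 : ℝ) < n := by exact_mod_cast hn
    calc S G τ a n ρ x / n ≤ (odo G τ a {x | G.dist a x < R} n ρ x : ℝ≥0∞) / n :=
          ENNReal.div_le_div_right hS _
      _ = ENNReal.ofReal ((odo G τ a {x | G.dist a x < R} n ρ x : ℝ) / n) := by
          rw [ENNReal.ofReal_div_of_pos hn', ENNReal.ofReal_natCast, ENNReal.ofReal_natCast]
      _ ≤ _ := ENNReal.ofReal_le_ofReal (div_le_div_of_nonneg_right (h n R) hn'.le)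
  have hlim2 : Tendsto (fun k : ℕ => ENNReal.ofReal (green G a x + 1 / ((k : ℝ) + 1))) atTop
      (𝓝 (ENNReal.ofReal (green G a x))) := by
    apply (ENNReal.continuous_ofReal.tendsto _).comp
    have := (tendsto_const_nhds (x := green G a x)).add
      (tendsto_one_div_add_atTop_nhds_zero_nat (𝕜 := ℝ))
    rwa [add_zero] at this
  exact ge_of_tendsto' hlim2 hle

end Pool.Agent.RW114.Assembly
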