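import Mathlib

/-!
# Project RW114 (MP_42a48c_pr): the almost sure Schramm bound for rotor walks

Definitions (`Conf`, `walk`, `S`, `green`, `IsOWUSF`) and the statements of the tasks.
-/

set_option autoImplicit false

open scoped BigOperators ENNReal
open MeasureTheory Filter Topology Classical

namespace Pool.Agent.RW114

variable {V : Type}

/-! ### The definitions of the problem -/

/-- Rotor configurations. -/
abbrev Conf (G : SimpleGraph V) : Type := ∀ x : V, G.neighborSet x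

/-- The mechanism at each vertex has a single orbit. -/
def SingleOrbit (G : SimpleGraph V) (τ : ∀ x, Equiv.Perm (G.neighborSet x)) : Prop :=
  ∀ (x : V) (u v : G.neighborSet x), ∃ k : ℕ, (τ x ^ k) u = v

/-- One step of the rotor walk: advance the rotor at the position of the walker, follow it. -/
noncomputable def step (G : SimpleGraph V) (τ : ∀ x, Equiv.Perm (G.neighborSet x))
    (s : Conf G × V) : Conf G × V :=
  (Function.update s.1 s.2 (τ s.2 (s.1 s.2)), ((τ s.2 (s.1 s.2) : G.neighborSet s.2) : V))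

/-- The rotor walk from `a` with initial configuration `ρ`: `(ρ_t, X_t)`. -/
noncomputable def walk (G : SimpleGraph V) (τ : ∀ x, Equiv.Perm (G.neighborSet x)) (a : V)
    (ρ : Conf G) (t : ℕ) : Conf G × V :=
  (step G τ)^[t] (ρ, a)

/-- Every vertex is visited finitely often. -/
def Transient (G : SimpleGraph V) (τ : ∀ x, Equiv.Perm (G.neighborSet x)) (a : V)
    (ρ : Conf G) : Prop :=
  ∀ x, {t : ℕ | (walk G τ a ρ t).2 = x}.Finite

/-- The number of visits to `x`. -/
noncomputable def visits (G : SimpleGraph V) (τ : ∀ x, Equiv.Perm (G.neighborSet x)) (a : V)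
    (ρ : Conf G) (x : V) : ℕ :=
  {t : ℕ | (walk G τ a ρ t).2 = x}.ncard

/-- The final configuration `σ(ρ)(x) = lim_t ρ_t(x)`. -/
noncomputable def final (G : SimpleGraph V) (τ : ∀ x, Equiv.Perm (G.neighborSet x)) (a : V)
    (ρ : Conf G) : Conf G := fun x =>
  if h : ∃ v, ∀ᶠ t in atTop, (walk G τ a ρ t).1 x = v then h.choose else ρ x

/-- `S_n(ρ, x)`: the number of visits to `x` during `n` successive walks from `a`. -/
noncomputable def S (G : SimpleGraph V) (τ : ∀ x, Equiv.Perm (G.neighborSet x)) (a : V) (n : ℕ)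
    (ρ : Conf G) (x : V) : ℝ≥0∞ :=
  if ∀ i < n, Transient G τ a ((final G τ a)^[i] ρ) then
    ∑ i ∈ Finset.range n, (visits G τ a ((final G τ a)^[i] ρ) x : ℝ≥0∞) else ⊤

/-- The law of simple random walk started at `a`, at time `t`. -/
noncomputable def prob (G : SimpleGraph V) [G.LocallyFinite] (a : V) : ℕ → V → ℝ
  | 0 => fun x => if x = a then 1 else 0
  | (t + 1) => fun y => ∑ x ∈ G.neighborFinset y, prob G a t x / G.degree x

/-- The Green function. -/
noncomputable def green (G : SimpleGraph V) [G.LocallyFinite] (a : V) (x : V) : ℝ :=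
  ∑' t, prob G a t x

/-- The vertices of the ball of radius `R` that are not on the sphere. -/
abbrev Inner (G : SimpleGraph V) (a : V) (R : ℕ) : Type := {x : V // G.dist a x < R}

/-- The `Z_R`-oriented spanning forests of `G_R`: an out-neighbour for every vertex at distance
less than `R` from `a`, without directed cycle. -/
def Forests (G : SimpleGraph V) (a : V) (R : ℕ) : Set (∀ x : Inner G a R, G.neighborSet x.1) :=
  {f | ¬ ∃ (k : ℕ) (c : ℕ → Inner G a R), 0 < k ∧ c k = c 0 ∧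
    ∀ i < k, ((f (c i) : G.neighborSet (c i).1) : V) = (c (i + 1)).1}

instance confMS (G : SimpleGraph V) : MeasurableSpace (Conf G) :=
  MeasurableSpace.pi (m := fun _ => ⊤)

/-- The measure `μ` is the weak limit of the uniform measures on the forests. -/
def IsOWUSF (G : SimpleGraph V) (a : V) (μ : Measure (Conf G)) : Prop :=
  ∀ (W : Finset V) (η : Conf G),
    Tendsto (fun R : ℕ => (({f | f ∈ Forests G a R ∧ ∀ x : Inner G a R, x.1 ∈ W → f x = η x.1}.ncard
      : ℝ) / (Forests G a R).ncard)) atTop (𝓝 (μ.real {ρ | ∀ x ∈ W, ρ x = η x}))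

/-- The question. -/
def Question : Prop :=
  ∀ (V : Type) (G : SimpleGraph V) [G.LocallyFinite], G.Connected → Infinite V →
    ∀ (τ : ∀ x, Equiv.Perm (G.neighborSet x)), SingleOrbit G τ → ∀ a : V,
      (∀ x, Summable fun t => prob G a t x) →
      ∀ μ : Measure (Conf G), IsProbabilityMeasure μ → IsOWUSF G a μ →
        ∀ᵐ ρ ∂μ, ∀ x, limsup (fun n : ℕ => S G τ a n ρ x / n) atTop ≤ ENNReal.ofReal (green G a x)

/-! ### Odometers -/

/-- The number of exits from `x` to `y` among the first `k` exits from `x`. -/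
noncomputable def ex (G : SimpleGraph V) (τ : ∀ x, Equiv.Perm (G.neighborSet x)) (ρ : Conf G)
    (x y : V) (k : ℕ) : ℕ :=
  ((Finset.range k).filter fun j => (((τ x ^ (j + 1)) (ρ x) : G.neighborSet x) : V) = y).card

/-- The configuration after `v x` exits from every `x`. -/
def fire (G : SimpleGraph V) (τ : ∀ x, Equiv.Perm (G.neighborSet x)) (ρ : Conf G)
    (v : V → ℕ) : Conf G := fun x => (τ x ^ (v x)) (ρ x)

/-- The number of arrivals at `y` (with `n` chips started at `a`, exits only from `I`). -/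
noncomputable def arr (G : SimpleGraph V) [G.LocallyFinite]
    (τ : ∀ x, Equiv.Perm (G.neighborSet x)) (a : V) (I : Set V) (n : ℕ) (ρ : Conf G)
    (v : V → ℕ) (y : V) : ℕ :=
  (if y = a then n else 0) + ∑ x ∈ G.neighborFinset y, if x ∈ I then ex G τ ρ x y (v x) else 0

/-- Super-solutions. -/
def Super (G : SimpleGraph V) [G.LocallyFinite] (τ : ∀ x, Equiv.Perm (G.neighborSet x)) (a : V)
    (I : Set V) (n : ℕ) (ρ : Conf G) (v : V → ℕ) : Prop :=
  ∀ y ∈ I, arr G τ a I n ρ v y ≤ v y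

/-- The odometer: the least super-solution (zero outside `I`). -/
noncomputable def odo (G : SimpleGraph V) [G.LocallyFinite]
    (τ : ∀ x, Equiv.Perm (G.neighborSet x)) (a : V) (I : Set V) (n : ℕ) (ρ : Conf G)
    (y : V) : ℕ :=
  if y ∈ I then sInf {k | ∃ v, Super G τ a I n ρ v ∧ v y = k} else 0

/-- Every nonempty subset of `I` can be left. -/
def Esc (G : SimpleGraph V) (I : Set V) : Prop :=
  ∀ D ⊆ I, D.Nonempty → ∃ x ∈ D, ∃ y, y ∉ D ∧ G.Adj x y

/-- No nonempty subset of `I` is closed under the rotors. -/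
def Acyc (G : SimpleGraph V) (I : Set V) (ρ : Conf G) : Prop :=
  ∀ D ⊆ I, D.Nonempty → ∃ x ∈ D, ((ρ x : G.neighborSet x) : V) ∉ D

/-- The acyclic configurations that agree with `η` outside `I`. -/
def FF (G : SimpleGraph V) (I : Set V) (η : Conf G) : Set (Conf G) :=
  {ρ | (∀ x, x ∉ I → ρ x = η x) ∧ Acyc G I ρ}

/-- One walk with sink outside `I`. -/
noncomputable def sig (G : SimpleGraph V) [G.LocallyFinite]
    (τ : ∀ x, Equiv.Perm (G.neighborSet x)) (a : V) (I : Set V) (ρ : Conf G) : Conf G :=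
  fire G τ ρ (odo G τ a I 1 ρ)

/-- Counting exits. -/
def TaskE : Prop :=
  ∀ (V : Type) (G : SimpleGraph V) [G.LocallyFinite] (τ : ∀ x, Equiv.Perm (G.neighborSet x))
    (ρ : Conf G),
    (∀ x y k l, k ≤ l → ex G τ ρ x y k ≤ ex G τ ρ x y l) ∧
    (∀ (v : V → ℕ) x y l, ex G τ ρ x y (v x + l) = ex G τ ρ x y (v x) +
      ex G τ (fire G τ ρ v) x y l) ∧
    (∀ v w : V → ℕ, fire G τ (fire G τ ρ v) w = fire G τ ρ (v + w)) ∧
    (∀ x k, ∑ y ∈ G.neighborFinset x, ex G τ ρ x y k = k) ∧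
    (SingleOrbit G τ → ∀ (x y : V) (k : ℕ), G.Adj x y →
      (k : ℝ) / G.degree x - 1 ≤ ex G τ ρ x y k ∧
      ((τ x ^ k) (ρ x) = ρ x → (ex G τ ρ x y k : ℝ) = (k : ℝ) / G.degree x))

/-- Finite super-solutions exist. -/
def TaskSuper : Prop :=
  ∀ (V : Type) (G : SimpleGraph V) [G.LocallyFinite] (τ : ∀ x, Equiv.Perm (G.neighborSet x))
    (a : V) (I : Set V) (n : ℕ) (ρ : Conf G), SingleOrbit G τ → I.Finite → Esc G I →
    ∃ v, Super G τ a I n ρ v

/-- The odometer is the least super-solution, and a solution. -/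
def TaskOdo : Prop :=
  ∀ (V : Type) (G : SimpleGraph V) [G.LocallyFinite] (τ : ∀ x, Equiv.Perm (G.neighborSet x))
    (a : V) (I : Set V) (n : ℕ) (ρ : Conf G), I.Finite → (∃ v, Super G τ a I n ρ v) →
    Super G τ a I n ρ (odo G τ a I n ρ) ∧
    (∀ y ∈ I, arr G τ a I n ρ (odo G τ a I n ρ) y = odo G τ a I n ρ y) ∧
    (∀ v, Super G τ a I n ρ v → ∀ y, y ∈ I → odo G τ a I n ρ y ≤ v y) ∧
    ∀ y, y ∉ I → odo G τ a I n ρ y = 0

/-- The final configuration is acyclic. -/
def TaskAcyc : Prop :=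
  ∀ (V : Type) (G : SimpleGraph V) [G.LocallyFinite] (τ : ∀ x, Equiv.Perm (G.neighborSet x))
    (a : V) (I : Set V) (n : ℕ) (ρ : Conf G), I.Finite → (∃ v, Super G τ a I n ρ v) →
    Acyc G I ρ → Acyc G I (fire G τ ρ (odo G τ a I n ρ))

/-- Injectivity: the final configuration determines the initial one among the acyclic ones. -/
def TaskInj : Prop :=
  ∀ (V : Type) (G : SimpleGraph V) [G.LocallyFinite] (τ : ∀ x, Equiv.Perm (G.neighborSet x))
    (a : V) (I : Set V) (n : ℕ) (ρ₁ ρ₂ : Conf G) (v₁ v₂ : V → ℕ), I.Finite →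
    (∀ y ∈ I, arr G τ a I n ρ₁ v₁ y = v₁ y) → (∀ y ∈ I, arr G τ a I n ρ₂ v₂ y = v₂ y) →
    (∀ y, y ∉ I → v₁ y = 0 ∧ v₂ y = 0) → Acyc G I ρ₁ → Acyc G I ρ₂ →
    fire G τ ρ₁ v₁ = fire G τ ρ₂ v₂ → ρ₁ = ρ₂ ∧ v₁ = v₂

/-- The cocycle property. -/
def TaskCoc : Prop :=
  ∀ (V : Type) (G : SimpleGraph V) [G.LocallyFinite] (τ : ∀ x, Equiv.Perm (G.neighborSet x))
    (a : V) (I : Set V) (n m : ℕ) (ρ : Conf G), I.Finite →
    (∀ (k : ℕ) (ρ' : Conf G), ∃ v, Super G τ a I k ρ' v) →
    odo G τ a I (n + m) ρ =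
      odo G τ a I n ρ + odo G τ a I m (fire G τ ρ (odo G τ a I n ρ))

/-- Monotonicity in the domain and in the number of chips. -/
def TaskMono : Prop :=
  ∀ (V : Type) (G : SimpleGraph V) [G.LocallyFinite] (τ : ∀ x, Equiv.Perm (G.neighborSet x))
    (a : V) (I J : Set V) (n m : ℕ) (ρ : Conf G), I ⊆ J → n ≤ m → J.Finite →
    (∃ v, Super G τ a J m ρ v) → ∀ y, odo G τ a I n ρ y ≤ odo G τ a J m ρ y

/-- The odometer depends only on the rotors in the domain. -/
def TaskLocal : Prop :=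
  ∀ (V : Type) (G : SimpleGraph V) [G.LocallyFinite] (τ : ∀ x, Equiv.Perm (G.neighborSet x))
    (a : V) (I : Set V) (n : ℕ) (ρ ρ' : Conf G), (∀ x ∈ I, ρ x = ρ' x) →
    odo G τ a I n ρ = odo G τ a I n ρ' ∧ (Acyc G I ρ ↔ Acyc G I ρ')

/-- The lower bound: for every `y` and `t` there is a constant that works for all large `R`, all
`n` and all `ρ`. -/
def TaskLow : Prop :=
  ∀ (V : Type) (G : SimpleGraph V) [G.LocallyFinite] (τ : ∀ x, Equiv.Perm (G.neighborSet x))
    (a : V), SingleOrbit G τ → G.Connected → ∀ (t : ℕ) (y : V), ∃ C : ℝ, 0 ≤ C ∧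
    ∀ (R n : ℕ) (ρ : Conf G) (v : V → ℕ), G.dist a y + t < R →
      Super G τ a {x | G.dist a x < R} n ρ v →
      (n : ℝ) * ∑ s ∈ Finset.range (t + 1), prob G a s y - C ≤ v y

/-- Over a period the odometer is at most the Green function. -/
def TaskPer : Prop :=
  ∀ (V : Type) (G : SimpleGraph V) [G.LocallyFinite] (τ : ∀ x, Equiv.Perm (G.neighborSet x))
    (a : V) (I : Set V) (n : ℕ) (ρ : Conf G) (v : V → ℕ), SingleOrbit G τ → I.Finite →
    Esc G I → (∀ x, Summable fun t => prob G a t x) →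
    (∀ y ∈ I, arr G τ a I n ρ v y = v y) → fire G τ ρ v = ρ →
    ∀ y ∈ I, (v y : ℝ) ≤ n * green G a y

/-- The maximal inequality for a permutation of a finite set. -/
def TaskMax : Prop :=
  ∀ (α : Type) (F : Finset α) (T : α → α) (X : α → ℝ) (M : ℕ) (ε : ℝ), 0 < ε →
    Set.BijOn T F F →
    ε * ((F.filter fun ρ => ∃ m, 1 ≤ m ∧ m ≤ M ∧
      m * ε < ∑ j ∈ Finset.range m, X (T^[j] ρ)).card : ℝ) ≤ ∑ ρ ∈ F, max (X ρ) 0

/-- The mean of the odometer (uses TaskPer, TaskCoc, TaskInj, TaskAcyc, TaskOdo). -/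
def TaskMean : Prop :=
  ∀ (V : Type) (G : SimpleGraph V) [G.LocallyFinite] (τ : ∀ x, Equiv.Perm (G.neighborSet x))
    (a : V) (I : Set V) (η : Conf G) (F : Finset (Conf G)), SingleOrbit G τ → I.Finite →
    Esc G I → (∀ x, Summable fun t => prob G a t x) → (F : Set (Conf G)) = FF G I η →
    Set.BijOn (sig G τ a I) F F ∧
    (∀ (n : ℕ) (ρ : Conf G) (y : V), odo G τ a I n ρ y =
      ∑ i ∈ Finset.range n, odo G τ a I 1 ((sig G τ a I)^[i] ρ) y) ∧
    ∀ (n : ℕ) (y : V), y ∈ I →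
      ∑ ρ ∈ F, (odo G τ a I n ρ y : ℝ) ≤ F.card * (n * green G a y)

/-- The maximal estimate in finite volume, uniform in `R` (uses TaskMean, TaskMax, TaskLow). -/
def TaskFin : Prop :=
  ∀ (V : Type) (G : SimpleGraph V) [G.LocallyFinite] (τ : ∀ x, Equiv.Perm (G.neighborSet x))
    (a : V), SingleOrbit G τ → G.Connected → Infinite V →
    (∀ x, Summable fun t => prob G a t x) → ∀ (y : V) (ε δ : ℝ), 0 < ε → 0 < δ →
    ∃ n₀ R₀ : ℕ, 0 < n₀ ∧ ∀ (R M : ℕ) (η : Conf G), R₀ ≤ R →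
      (({ρ | ρ ∈ FF G {x | G.dist a x < R} η ∧ ∃ m, 1 ≤ m ∧ m ≤ M ∧
        (m : ℝ) * n₀ * (green G a y + ε) < odo G τ a {x | G.dist a x < R} (m * n₀) ρ y}.ncard : ℝ)
        ≤ δ * (FF G {x | G.dist a x < R} η).ncard)

/-- Super-solutions in infinite volume bound the successive walks. -/
def TaskWalk : Prop :=
  ∀ (V : Type) (G : SimpleGraph V) [G.LocallyFinite] (τ : ∀ x, Equiv.Perm (G.neighborSet x))
    (a : V) (n : ℕ) (ρ : Conf G) (v : V → ℕ), Super G τ a Set.univ n ρ v →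
    ∀ x, S G τ a n ρ x ≤ (v x : ℝ≥0∞)

/-- The limit of the odometers is a super-solution. -/
def TaskLim : Prop :=
  ∀ (V : Type) (G : SimpleGraph V) [G.LocallyFinite] (τ : ∀ x, Equiv.Perm (G.neighborSet x))
    (a : V) (n : ℕ) (ρ : Conf G), G.Connected → (∀ R : ℕ, {x | G.dist a x < R}.Finite) →
    (∀ R : ℕ, ∃ v, Super G τ a {x | G.dist a x < R} n ρ v) →
    (∀ y, BddAbove (Set.range fun R : ℕ => odo G τ a {x | G.dist a x < R} n ρ y)) →
    Super G τ a Set.univ n ρ (fun y => sSup (Set.range fun R : ℕ =>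
      odo G τ a {x | G.dist a x < R} n ρ y))

/-- Balls are finite; finite sets can be left. -/
def TaskBall : Prop :=
  ∀ (V : Type) (G : SimpleGraph V) [G.LocallyFinite] (a : V), G.Connected → Infinite V →
    (∀ R : ℕ, {x | G.dist a x < R}.Finite) ∧ ∀ I : Set V, I.Finite → Esc G I

/-- Forests and acyclic configurations. -/
def TaskForest : Prop :=
  ∀ (V : Type) (G : SimpleGraph V) [G.LocallyFinite] (a : V), G.Connected → Infinite V →
    ∀ (R : ℕ) (η : Conf G) (A : Set (Conf G)),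
      (∀ ρ ρ' : Conf G, (∀ x, G.dist a x < R → ρ x = ρ' x) → (ρ ∈ A ↔ ρ' ∈ A)) →
      {f | f ∈ Forests G a R ∧ ∃ ρ ∈ A, ∀ x : Inner G a R, f x = ρ x.1}.ncard =
        (FF G {x | G.dist a x < R} η ∩ A).ncard

/-- Restriction to a smaller ball preserves acyclicity; and the limit: a local event that has at
most a fraction `c` of the forests for all large `R` has measure at most `c` (uses TaskForest). -/
def TaskWeak : Prop :=
  ∀ (V : Type) (G : SimpleGraph V) [G.LocallyFinite] (a : V), G.Connected →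
    Infinite V → ∀ μ : Measure (Conf G), IsProbabilityMeasure μ → IsOWUSF G a μ →
    ∀ (R' R₀ : ℕ) (A : Set (Conf G)) (c : ℝ), 0 ≤ c →
      (∀ ρ ρ' : Conf G, (∀ x, G.dist a x < R' → ρ x = ρ' x) → (ρ ∈ A ↔ ρ' ∈ A)) →
      (∀ R, R₀ ≤ R → R' ≤ R → ∀ η : Conf G,
        ((FF G {x | G.dist a x < R} η ∩ A).ncard : ℝ) ≤ c * (FF G {x | G.dist a x < R} η).ncard) →
      MeasurableSet A ∧ μ A ≤ ENNReal.ofReal c

end Pool.Agent.RW114
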