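import Pool.Agent.RW114.Stmts

set_option autoImplicit false

open scoped BigOperators
open Classical

namespace Pool.Agent.RW114.TaskAcyc

variable {V : Type}

theorem ex_succ (G : SimpleGraph V) (τ : ∀ x, Equiv.Perm (G.neighborSet x)) (ρ : Conf G)
    (x y : V) (k : ℕ) :
    ex G τ ρ x y (k + 1) = ex G τ ρ x y k +
      if (((τ x ^ (k + 1)) (ρ x) : G.neighborSet x) : V) = y then 1 else 0 := by
  unfold ex
  rw [Finset.range_add_one, Finset.filter_insert]
  split_ifs with h
  · rw [Finset.card_insert_of_notMem (by simp)]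
  · simp

theorem main (hO : Pool.Agent.RW114.TaskOdo) : Pool.Agent.RW114.TaskAcyc := by
  intro V G _ τ a I n ρ hI hex hac
  obtain ⟨hs, heq, hmin, hz⟩ := hO V G τ a I n ρ hI hex
  set u := odo G τ a I n ρ with hu
  by_contra hcon
  unfold Acyc at hcon
  push Not at hcon
  obtain ⟨D, hDI, hDn, hDc⟩ := hcon
  have hP : ∃ k, ∃ D ⊆ I, D.Nonempty ∧
      (∀ x ∈ D, ((fire G τ ρ u x : G.neighborSet x) : V) ∈ D) ∧ D.ncard = k :=
    ⟨_, D, hDI, hDn, hDc, rfl⟩
  obtain ⟨E, hEI, hEn, hEc, hk⟩ := Nat.find_spec hP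
  have hEf : E.Finite := hI.subset hEI
  have hm : ∀ F ⊆ E, F.Nonempty →
      (∀ x ∈ F, ((fire G τ ρ u x : G.neighborSet x) : V) ∈ F) → F = E := by
    intro F hF hFn hFc
    have h1 : Nat.find hP ≤ F.ncard := Nat.find_min' hP ⟨F, hF.trans hEI, hFn, hFc, rfl⟩
    exact Set.eq_of_subset_of_ncard_le hF (by omega) hEf
  -- the image of `E` is `E`
  have hsurj : ∀ y ∈ E, ∃ x ∈ E, ((fire G τ ρ u x : G.neighborSet x) : V) = y := by
    have h1 : (fun x => ((fire G τ ρ u x : G.neighborSet x) : V)) '' E = E := by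
      apply hm
      · rintro _ ⟨x, hx, rfl⟩
        exact hEc x hx
      · exact hEn.image _
      · rintro _ ⟨x, hx, rfl⟩
        exact ⟨_, hEc x hx, rfl⟩
    intro y hy
    rw [← h1] at hy
    exact hy
  -- a vertex with an exit sends its last chip to its rotor
  have hadj : ∀ x, G.Adj x ((fire G τ ρ u x : G.neighborSet x) : V) := fun x =>
    (fire G τ ρ u x).2
  have hpos : ∀ x ∈ E, 0 < u x → 0 < u ((fire G τ ρ u x : G.neighborSet x) : V) := by
    intro x hx hux
    obtain ⟨k, hk'⟩ : ∃ k, u x = k + 1 := ⟨u x - 1, by omega⟩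
    have hyI := hEI (hEc x hx)
    rw [← heq _ hyI]
    unfold arr
    have h2 : 0 < ∑ z ∈ G.neighborFinset ((fire G τ ρ u x : G.neighborSet x) : V),
        (if z ∈ I then ex G τ ρ z ((fire G τ ρ u x : G.neighborSet x) : V) (u z) else 0) := by
      apply Finset.sum_pos' (fun _ _ => Nat.zero_le _)
      refine ⟨x, ?_, ?_⟩
      · rw [SimpleGraph.mem_neighborFinset]
        exact (hadj x).symm
      · rw [if_pos (hEI hx), hk', ex_succ]
        have h3 : fire G τ ρ u x = (τ x ^ (k + 1)) (ρ x) := by
          unfold fire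
          rw [hk']
        rw [h3, if_pos rfl]
        omega
    omega
  -- all of `E` has exits
  have hall : ∀ x ∈ E, 0 < u x := by
    by_cases hne : ({x ∈ E | 0 < u x} : Set V).Nonempty
    · have h1 : {x ∈ E | 0 < u x} = E := by
        apply hm _ (Set.sep_subset _ _) hne
        rintro x ⟨hx, hux⟩
        exact ⟨hEc x hx, hpos x hx hux⟩
      intro x hx
      rw [← h1] at hx
      exact hx.2
    · exfalso
      have h0 : ∀ x ∈ E, u x = 0 := by
        intro x hx
        by_contra h
        exact hne ⟨x, hx, Nat.pos_of_ne_zero h⟩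
      obtain ⟨x, hx, hx'⟩ := hac E hEI hEn
      apply hx'
      have h1 := hEc x hx
      unfold fire at h1
      rw [h0 x hx] at h1
      simpa using h1
  -- `u - 1_E` is a super-solution
  have hsup : Super G τ a I n ρ (fun x => if x ∈ E then u x - 1 else u x) := by
    intro y hy
    have h1 := heq y hy
    unfold arr at h1 ⊢
    have h2 : ∑ x ∈ G.neighborFinset y, (if x ∈ I then ex G τ ρ x y (u x) else 0) =
        ∑ x ∈ G.neighborFinset y,
          (if x ∈ I then ex G τ ρ x y (if x ∈ E then u x - 1 else u x) else 0) +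
        ∑ x ∈ G.neighborFinset y,
          (if x ∈ E ∧ ((fire G τ ρ u x : G.neighborSet x) : V) = y then 1 else 0) := by
      rw [← Finset.sum_add_distrib]
      apply Finset.sum_congr rfl
      intro x _
      by_cases hxE : x ∈ E
      · have hxI := hEI hxE
        rw [if_pos hxI, if_pos hxI, if_pos hxE]
        obtain ⟨k, hk'⟩ : ∃ k, u x = k + 1 := ⟨u x - 1, by have := hall x hxE; omega⟩
        have h3 : fire G τ ρ u x = (τ x ^ (k + 1)) (ρ x) := by
          unfold fire
          rw [hk']
        rw [hk', Nat.add_sub_cancel, ex_succ, h3]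
        simp [hxE]
      · simp [hxE]
    rw [h2] at h1
    by_cases hyE : y ∈ E
    · have h4 : 0 < ∑ x ∈ G.neighborFinset y,
          (if x ∈ E ∧ ((fire G τ ρ u x : G.neighborSet x) : V) = y then 1 else 0) := by
        apply Finset.sum_pos' (fun _ _ => Nat.zero_le _)
        obtain ⟨x, hx, hxy⟩ := hsurj y hyE
        refine ⟨x, ?_, ?_⟩
        · rw [SimpleGraph.mem_neighborFinset, ← hxy]
          exact (hadj x).symm
        · rw [if_pos ⟨hx, hxy⟩]
          exact Nat.one_pos
      have h5 := hall y hyE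
      simp only [hyE, if_true]
      omega
    · simp only [hyE, if_false]
      omega
  obtain ⟨x, hx⟩ := hEn
  have h1 := hmin _ hsup x (hEI hx)
  have h2 := hall x hx
  simp only [hx, if_true] at h1
  omega

end Pool.Agent.RW114.TaskAcyc
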