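import Pool.Agent.RW114.Stmts

set_option autoImplicit false

open Classical

namespace Pool.Agent.RW114.TaskBall

theorem main : Pool.Agent.RW114.TaskBall := by
  intro V G _ a hc hinf
  constructor
  · intro R
    induction R with
    | zero => simp
    | succ R ih =>
      have h : {x | G.dist a x < R + 1} ⊆ {a} ∪ ⋃ y ∈ {x | G.dist a x < R}, (G.neighborSet y) := by
        intro x hx
        by_cases hxa : x = a
        · left; exact hxa
        right
        obtain ⟨p, hp⟩ := hc.exists_walk_length_eq_dist x a
        cases p with
        | nil => exact absurd rfl hxa
        | @cons _ y _ hadj q =>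
          simp only [Set.mem_iUnion]
          refine ⟨y, ?_, hadj.symm⟩
          have h1 : G.dist y a ≤ q.length := SimpleGraph.dist_le q
          have h2 : G.dist x a = q.length + 1 := by rw [← hp]; rfl
          have h3 : G.dist a x < R + 1 := hx
          show G.dist a y < R
          rw [SimpleGraph.dist_comm] at h3 ⊢
          omega
      refine Set.Finite.subset ?_ h
      refine (Set.finite_singleton a).union ?_
      refine ih.biUnion fun y _ => ?_
      exact Set.toFinite _
  · intro I hI D hD hne
    by_contra hcon
    push Not at hcon
    obtain ⟨x, hx⟩ := hne
    have hall : ∀ z, z ∈ D := by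
      intro z
      obtain ⟨p⟩ := hc.preconnected x z
      induction p with
      | nil => exact hx
      | cons hadj q ih =>
        apply ih
        by_contra hy
        exact hcon _ hx _ hy hadj
    have : (Set.univ : Set V).Finite := hI.subset (fun z _ => hD (hall z))
    exact Set.infinite_univ this

end Pool.Agent.RW114.TaskBall
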