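import Pool.Agent.RW114.TaskOdo

set_option autoImplicit false

open scoped BigOperators Classical

namespace Pool.Agent.RW114.TaskCoc

open Pool.Agent.RW114

theorem arr_add (hE : TaskE) {V : Type} (G : SimpleGraph V) [G.LocallyFinite]
    (τ : ∀ x, Equiv.Perm (G.neighborSet x)) (a : V) (I : Set V) (n m : ℕ) (ρ : Conf G)
    (v u z : V → ℕ) (hz : ∀ x ∈ I, z x = v x + u x) (y : V) :
    arr G τ a I (n + m) ρ z y =
      arr G τ a I n ρ v y + arr G τ a I m (fire G τ ρ v) u y := by
  unfold arr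
  have h1 : (if y = a then n + m else 0) = (if y = a then n else 0) + (if y = a then m else 0) := by
    split_ifs <;> simp
  have h2 : (∑ x ∈ G.neighborFinset y, if x ∈ I then ex G τ ρ x y (z x) else 0) =
      (∑ x ∈ G.neighborFinset y, if x ∈ I then ex G τ ρ x y (v x) else 0) +
      ∑ x ∈ G.neighborFinset y, if x ∈ I then ex G τ (fire G τ ρ v) x y (u x) else 0 := by
    rw [← Finset.sum_add_distrib]
    apply Finset.sum_congr rfl
    intro x _
    by_cases hx : x ∈ I
    · rw [if_pos hx, if_pos hx, if_pos hx, hz x hx]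
      exact (hE V G τ ρ).2.1 v x y (u x)
    · rw [if_neg hx, if_neg hx, if_neg hx]
  rw [h1, h2]
  omega

theorem main (hE : TaskE) : Pool.Agent.RW114.TaskCoc := by
  intro V G _ τ a I n m ρ hI hex
  obtain ⟨hs1, hf1, hl1, hz1⟩ := Pool.Agent.RW114.TaskOdo.main hE V G τ a I n ρ hI (hex _ _)
  obtain ⟨hs2, hf2, hl2, hz2⟩ := Pool.Agent.RW114.TaskOdo.main hE V G τ a I m
    (fire G τ ρ (odo G τ a I n ρ)) hI (hex _ _)
  obtain ⟨hs3, hf3, hl3, hz3⟩ := Pool.Agent.RW114.TaskOdo.main hE V G τ a I (n + m) ρ hI (hex _ _)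
  have hmono : ∀ y ∈ I, odo G τ a I n ρ y ≤ odo G τ a I (n + m) ρ y := by
    intro y hy
    apply Pool.Agent.RW114.TaskOdo.odo_le G τ a I n ρ _ _ y hy
    intro z hz
    exact le_trans (Pool.Agent.RW114.TaskOdo.arr_mono hE G τ a I I n (n + m) ρ _ _ (le_refl _)
      (Nat.le_add_right _ _) (fun _ _ => le_refl _) z) (hs3 z hz)
  funext y
  rw [Pi.add_apply]
  by_cases hy : y ∈ I
  · apply le_antisymm
    · have := hl3 (odo G τ a I n ρ + odo G τ a I m (fire G τ ρ (odo G τ a I n ρ))) (by
        intro z hz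
        rw [arr_add hE G τ a I n m ρ (odo G τ a I n ρ)
          (odo G τ a I m (fire G τ ρ (odo G τ a I n ρ)))
          (odo G τ a I n ρ + odo G τ a I m (fire G τ ρ (odo G τ a I n ρ)))
          (fun x _ => rfl) z]
        exact add_le_add (hs1 z hz) (hs2 z hz)) y hy
      exact this
    · have hu := hl2 (fun x => odo G τ a I (n + m) ρ x - odo G τ a I n ρ x) (by
        intro z hz
        have h := arr_add hE G τ a I n m ρ (odo G τ a I n ρ)
          (fun x => odo G τ a I (n + m) ρ x - odo G τ a I n ρ x) (odo G τ a I (n + m) ρ)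
          (fun x hx => by have := hmono x hx; omega) z
        rw [hf3 z hz, hf1 z hz] at h
        show _ ≤ odo G τ a I (n + m) ρ z - odo G τ a I n ρ z
        omega) y hy
      have := hmono y hy
      omega
  · rw [hz1 y hy, hz2 y hy, hz3 y hy]

end Pool.Agent.RW114.TaskCoc
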