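import Mathlib
import Pool.Agent.RW114.Stmts

set_option autoImplicit false

open scoped BigOperators ENNReal
open MeasureTheory Filter Topology Classical

namespace Pool.Agent.RW114.TaskE

open Pool.Agent.RW114

theorem per {N : Type} [Fintype N] (σ : Equiv.Perm N)
    (h : ∀ u v : N, ∃ k : ℕ, (σ ^ k) u = v) (u : N) :
    Function.minimalPeriod σ u = Fintype.card N := by
  have hper : ∃ n : ℕ, 0 < n ∧ Function.IsPeriodicPt σ n u := by
    obtain ⟨k, hk⟩ := h (σ u) u
    refine ⟨k + 1, Nat.succ_pos _, ?_⟩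
    show σ^[k + 1] u = u
    rw [Function.iterate_succ_apply, Equiv.Perm.iterate_eq_pow]
    exact hk
  have hp : 0 < Function.minimalPeriod σ u := by
    obtain ⟨n, hn, hn'⟩ := hper
    exact hn'.minimalPeriod_pos hn
  have hbij : Function.Bijective
      (fun i : Fin (Function.minimalPeriod σ u) => (σ^[(i : ℕ)] u)) := by
    constructor
    · intro i j hij
      apply Fin.ext
      exact Function.iterate_injOn_Iio_minimalPeriod i.2 j.2 hij
    · intro v
      obtain ⟨k, hk⟩ := h u v
      refine ⟨⟨k % Function.minimalPeriod σ u, Nat.mod_lt _ hp⟩, ?_⟩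
      show σ^[k % Function.minimalPeriod σ u] u = v
      rw [Function.iterate_mod_minimalPeriod_eq, Equiv.Perm.iterate_eq_pow]
      exact hk
  have := Fintype.card_of_bijective hbij
  rw [Fintype.card_fin] at this
  exact this

theorem ex_add {V : Type} (G : SimpleGraph V) (τ : ∀ x, Equiv.Perm (G.neighborSet x))
    (ρ : Conf G) (v : V → ℕ) (x y : V) (l : ℕ) :
    ex G τ ρ x y (v x + l) = ex G τ ρ x y (v x) + ex G τ (fire G τ ρ v) x y l := by
  unfold ex
  rw [Finset.card_filter, Finset.card_filter, Finset.card_filter, Finset.sum_range_add]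
  congr 1
  apply Finset.sum_congr rfl
  intro j _
  have : (τ x ^ (v x + j + 1)) (ρ x) = (τ x ^ (j + 1)) (fire G τ ρ v x) := by
    unfold fire
    rw [← Equiv.Perm.mul_apply, ← pow_add]
    congr 2
    omega
  rw [this]

theorem ex_deg {V : Type} (G : SimpleGraph V) [G.LocallyFinite]
    (τ : ∀ x, Equiv.Perm (G.neighborSet x)) (hτ : SingleOrbit G τ) (ρ : Conf G) (x y : V)
    (hxy : G.Adj x y) : ex G τ ρ x y (G.degree x) = 1 := by
  unfold ex
  rw [Finset.card_eq_one]
  have hd : ∀ u : G.neighborSet x, Function.minimalPeriod (τ x) u = G.degree x := by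
    intro u
    rw [per (τ x) (hτ x) u, G.card_neighborSet_eq_degree]
  have hdpos : 0 < G.degree x := by
    rw [SimpleGraph.degree_pos_iff_exists_adj]
    exact ⟨y, hxy⟩
  obtain ⟨k, hk⟩ := hτ x (τ x (ρ x)) ⟨y, hxy⟩
  have hk' : (τ x)^[k % G.degree x] (τ x (ρ x)) = ⟨y, hxy⟩ := by
    have := Function.iterate_mod_minimalPeriod_eq (f := τ x) (x := τ x (ρ x)) (n := k)
    rw [hd] at this
    rw [this, Equiv.Perm.iterate_eq_pow]
    exact hk
  refine ⟨k % G.degree x, ?_⟩
  ext j
  rw [Finset.mem_filter, Finset.mem_range, Finset.mem_singleton]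
  have hpow : ∀ j : ℕ, (τ x ^ (j + 1)) (ρ x) = (τ x)^[j] (τ x (ρ x)) := by
    intro j
    rw [Equiv.Perm.iterate_eq_pow, ← Equiv.Perm.mul_apply, ← pow_succ]
  constructor
  · rintro ⟨hj, hjy⟩
    rw [hpow] at hjy
    have h1 : (τ x)^[j] (τ x (ρ x)) = ⟨y, hxy⟩ := Subtype.ext hjy
    have h2 : (τ x)^[j] (τ x (ρ x)) = (τ x)^[k % G.degree x] (τ x (ρ x)) := by rw [h1, hk']
    have hinj := Function.iterate_injOn_Iio_minimalPeriod (f := τ x) (x := τ x (ρ x))
    rw [hd] at hinj
    exact hinj hj (Nat.mod_lt _ hdpos) h2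
  · rintro rfl
    refine ⟨Nat.mod_lt _ hdpos, ?_⟩
    rw [hpow, hk']

theorem ex_mul {V : Type} (G : SimpleGraph V) [G.LocallyFinite]
    (τ : ∀ x, Equiv.Perm (G.neighborSet x)) (hτ : SingleOrbit G τ) (ρ : Conf G) (x y : V)
    (hxy : G.Adj x y) (q : ℕ) : ex G τ ρ x y (q * G.degree x) = q := by
  induction q with
  | zero => simp [ex]
  | succ q ih =>
    have := ex_add G τ ρ (fun _ => q * G.degree x) x y (G.degree x)
    rw [Nat.succ_mul, this, ih, ex_deg G τ hτ _ x y hxy]

theorem ex_mono {V : Type} (G : SimpleGraph V) (τ : ∀ x, Equiv.Perm (G.neighborSet x))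
    (ρ : Conf G) (x y : V) (k l : ℕ) (h : k ≤ l) : ex G τ ρ x y k ≤ ex G τ ρ x y l := by
  unfold ex
  apply Finset.card_le_card
  apply Finset.filter_subset_filter
  exact Finset.range_mono h

theorem main : Pool.Agent.RW114.TaskE := by
  intro V G _ τ ρ
  refine ⟨fun x y k l h => ex_mono G τ ρ x y k l h, fun v x y l => ex_add G τ ρ v x y l, ?_, ?_, ?_⟩
  · intro v w
    funext x
    unfold fire
    rw [← Equiv.Perm.mul_apply, ← pow_add]
    congr 2
    rw [Pi.add_apply, add_comm]
  · intro x k
    have h := Finset.card_eq_sum_card_fiberwise (s := Finset.range k) (t := G.neighborFinset x)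
      (f := fun j => (((τ x ^ (j + 1)) (ρ x) : G.neighborSet x) : V)) (by
        intro j _
        rw [Finset.mem_coe, SimpleGraph.mem_neighborFinset]
        exact ((τ x ^ (j + 1)) (ρ x)).2)
    rw [Finset.card_range] at h
    exact h.symm
  · intro hτ x y k hxy
    have hdpos : 0 < G.degree x := by
      rw [SimpleGraph.degree_pos_iff_exists_adj]
      exact ⟨y, hxy⟩
    have hdR : (0 : ℝ) < G.degree x := by exact_mod_cast hdpos
    constructor
    · have h1 : k / G.degree x ≤ ex G τ ρ x y k := by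
        have := ex_mono G τ ρ x y (k / G.degree x * G.degree x) k (Nat.div_mul_le_self _ _)
        rw [ex_mul G τ hτ ρ x y hxy] at this
        exact this
      have h2 : k < (k / G.degree x + 1) * G.degree x := by
        have := Nat.lt_div_mul_add (a := k) hdpos
        rw [Nat.add_mul, Nat.one_mul]
        exact this
      have h3 : (k : ℝ) / G.degree x < ((k / G.degree x : ℕ) : ℝ) + 1 := by
        rw [div_lt_iff₀ hdR]
        exact_mod_cast h2
      have h4 : ((k / G.degree x : ℕ) : ℝ) ≤ ex G τ ρ x y k := by exact_mod_cast h1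
      linarith
    · intro hk
      have hdvd : G.degree x ∣ k := by
        have hper : Function.IsPeriodicPt (τ x) k (ρ x) := by
          show (τ x)^[k] (ρ x) = ρ x
          rw [Equiv.Perm.iterate_eq_pow]
          exact hk
        have := hper.minimalPeriod_dvd
        rw [per (τ x) (hτ x) (ρ x), G.card_neighborSet_eq_degree] at this
        exact this
      obtain ⟨q, rfl⟩ := hdvd
      rw [mul_comm (G.degree x) q, ex_mul G τ hτ ρ x y hxy]
      push_cast
      rw [mul_div_assoc, div_self hdR.ne', mul_one]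

end Pool.Agent.RW114.TaskE
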