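import Pool.Agent.RW114.Stmts

/-! # Project RW114, TaskFin: the maximal estimate in finite volume, uniform in `R` -/

set_option autoImplicit false

open scoped BigOperators ENNReal
open MeasureTheory Filter Topology Classical

namespace Pool.Agent.RW114.TaskFin

open Pool.Agent.RW114

/-- The set of acyclic configurations with given values outside a finite set is finite. -/
theorem FF_finite {V : Type} (G : SimpleGraph V) [G.LocallyFinite] (I : Set V) (hI : I.Finite)
    (η : Conf G) : (FF G I η).Finite := by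
  classical
  haveI : Finite I := hI.to_subtype
  haveI : ∀ x : I, Finite (G.neighborSet x.1) := fun x => by
    haveI : Fintype (G.neighborSet x.1) := inferInstance
    infer_instance
  haveI : Finite (∀ x : I, G.neighborSet x.1) := Pi.finite
  let φ : Conf G → (∀ x : I, G.neighborSet x.1) := fun ρ x => ρ x.1
  refine Set.Finite.of_finite_image (f := φ) (Set.toFinite _) ?_
  intro ρ hρ ρ' hρ' h
  funext x
  by_cases hx : x ∈ I
  · exact congrFun h ⟨x, hx⟩
  · rw [hρ.1 x hx, hρ'.1 x hx]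

/-- Splitting a sum over `range (m * n)` into blocks. -/
theorem sum_blocks (f : ℕ → ℝ) (n m : ℕ) :
    ∑ j ∈ Finset.range m, ∑ i ∈ Finset.range n, f (i + n * j) = ∑ k ∈ Finset.range (m * n), f k := by
  induction m with
  | zero => simp
  | succ m ih =>
    rw [Finset.sum_range_succ, ih, Nat.succ_mul, Finset.sum_range_add]
    congr 1
    refine Finset.sum_congr rfl fun i _ => ?_
    congr 1
    ring

theorem main (hSuper : TaskSuper) (hOdo : TaskOdo) (hBall : TaskBall) (hLow : TaskLow)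
    (hMax : TaskMax) (hMean : TaskMean) : Pool.Agent.RW114.TaskFin := by
  intro V G _ τ a hτ hconn hinf hsum y ε δ hε hδ
  classical
  -- the choice of the constants
  have hδε : 0 < δ * ε := mul_pos hδ hε
  have hlim : Tendsto (fun T : ℕ => ∑ s ∈ Finset.range T, prob G a s y) atTop
      (𝓝 (green G a y)) := (hsum y).hasSum.tendsto_sum_nat
  have hev : ∀ᶠ T : ℕ in atTop, green G a y - δ * ε / 2 <
      ∑ s ∈ Finset.range T, prob G a s y :=
    hlim.eventually (lt_mem_nhds (by linarith))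
  obtain ⟨T₀, hT₀⟩ := eventually_atTop.1 hev
  obtain ⟨C, hC0, hC⟩ := hLow V G τ a hτ hconn T₀ y
  have hT : green G a y - δ * ε / 2 < ∑ s ∈ Finset.range (T₀ + 1), prob G a s y :=
    hT₀ (T₀ + 1) (Nat.le_succ _)
  obtain ⟨n₀, hn₀⟩ := exists_nat_gt (C / (δ * ε / 2))
  have hn₀pos : (0 : ℝ) < n₀ := lt_of_le_of_lt (by positivity) hn₀
  have hn₀C : C < n₀ * (δ * ε / 2) := by
    rwa [div_lt_iff₀ (by positivity)] at hn₀
  refine ⟨n₀, G.dist a y + T₀ + 1, by exact_mod_cast hn₀pos, ?_⟩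
  intro R M η hR
  set I : Set V := {x | G.dist a x < R} with hIdef
  obtain ⟨hfin, hesc⟩ := hBall V G a hconn hinf
  have hIfin : I.Finite := hfin R
  have hIesc : Esc G I := hesc I hIfin
  have hyI : y ∈ I := by
    show G.dist a y < R
    omega
  have hFfin : (FF G I η).Finite := FF_finite G I hIfin η
  set F : Finset (Conf G) := hFfin.toFinset with hF
  have hFc : (F : Set (Conf G)) = FF G I η := by simp [hF]
  obtain ⟨hbij, hcoc, hmean⟩ := hMean V G τ a I η F hτ hIfin hIesc hsum hFc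
  -- the transformation and the observable
  set Tr : Conf G → Conf G := (sig G τ a I)^[n₀] with hTr
  have hTrbij : Set.BijOn Tr F F := hbij.iterate n₀
  set X : Conf G → ℝ := fun ρ => (odo G τ a I n₀ ρ y : ℝ) / n₀ - green G a y with hX
  have hsumX : ∑ ρ ∈ F, X ρ ≤ 0 := by
    have h1 := hmean n₀ y hyI
    have h2 : ∑ ρ ∈ F, X ρ = (∑ ρ ∈ F, (odo G τ a I n₀ ρ y : ℝ)) / n₀ - F.card * green G a y := by
      simp only [hX, Finset.sum_sub_distrib, Finset.sum_const, nsmul_eq_mul, Finset.sum_div]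
    rw [h2, sub_nonpos, div_le_iff₀ hn₀pos]
    calc _ ≤ _ := h1
      _ = _ := by ring
  have hXlow : ∀ ρ, -(δ * ε) ≤ X ρ := by
    intro ρ
    obtain ⟨v, hv⟩ := hSuper V G τ a I n₀ ρ hτ hIfin hIesc
    have hsup := (hOdo V G τ a I n₀ ρ hIfin ⟨v, hv⟩).1
    have h1 := hC R n₀ ρ _ (by omega) hsup
    have h2 : (n₀ : ℝ) * (green G a y - δ * ε / 2) ≤ n₀ * ∑ s ∈ Finset.range (T₀ + 1), prob G a s y :=
      mul_le_mul_of_nonneg_left hT.le hn₀pos.le
    have h3 : (n₀ : ℝ) * (green G a y - δ * ε) ≤ odo G τ a I n₀ ρ y := by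
      nlinarith
    have h4 : green G a y - δ * ε ≤ (odo G τ a I n₀ ρ y : ℝ) / n₀ := by
      rw [le_div_iff₀ hn₀pos]
      linarith
    simp only [hX]
    linarith
  have hmaxle : ∑ ρ ∈ F, max (X ρ) 0 ≤ δ * ε * F.card := by
    have h1 : ∑ ρ ∈ F, max (X ρ) 0 ≤ ∑ ρ ∈ F, (X ρ + δ * ε) := by
      refine Finset.sum_le_sum fun ρ _ => ?_
      have := hXlow ρ
      exact max_le (by linarith) (by linarith)
    rw [Finset.sum_add_distrib, Finset.sum_const, nsmul_eq_mul] at h1
    linarith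
  have hmi := hMax (Conf G) F Tr X M ε hε hTrbij
  -- sums of the observable along the orbit
  have horbit : ∀ (m : ℕ) (ρ : Conf G), ∑ j ∈ Finset.range m, X (Tr^[j] ρ) =
      (odo G τ a I (m * n₀) ρ y : ℝ) / n₀ - m * green G a y := by
    intro m ρ
    have h1 : ∀ j, (odo G τ a I n₀ (Tr^[j] ρ) y : ℝ) =
        ∑ i ∈ Finset.range n₀, (odo G τ a I 1 ((sig G τ a I)^[i + n₀ * j] ρ) y : ℝ) := by
      intro j
      rw [hcoc n₀]
      push_cast
      refine Finset.sum_congr rfl fun i _ => ?_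
      rw [hTr, ← Function.iterate_mul, Function.iterate_add_apply]
    have h2 : (odo G τ a I (m * n₀) ρ y : ℝ) =
        ∑ j ∈ Finset.range m, (odo G τ a I n₀ (Tr^[j] ρ) y : ℝ) := by
      rw [Finset.sum_congr rfl fun j _ => h1 j]
      rw [sum_blocks (fun k => (odo G τ a I 1 ((sig G τ a I)^[k] ρ) y : ℝ)) n₀ m]
      rw [hcoc (m * n₀)]
      push_cast
      rfl
    simp only [hX]
    rw [Finset.sum_sub_distrib, Finset.sum_const, nsmul_eq_mul, Finset.card_range,
      ← Finset.sum_div, ← h2]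
  -- comparison of the two events
  have hset : {ρ | ρ ∈ FF G I η ∧ ∃ m, 1 ≤ m ∧ m ≤ M ∧
      (m : ℝ) * n₀ * (green G a y + ε) < odo G τ a I (m * n₀) ρ y} =
      ((F.filter fun ρ => ∃ m, 1 ≤ m ∧ m ≤ M ∧
        m * ε < ∑ j ∈ Finset.range m, X (Tr^[j] ρ) : Finset (Conf G)) : Set (Conf G)) := by
    ext ρ
    simp only [Set.mem_setOf_eq, Finset.coe_filter]
    have hmem : ρ ∈ F ↔ ρ ∈ FF G I η := by simp [hF]
    rw [hmem]
    refine and_congr_right fun _ => exists_congr fun m => and_congr_right fun _ =>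
      and_congr_right fun _ => ?_
    rw [horbit, lt_sub_iff_add_lt, lt_div_iff₀ hn₀pos]
    constructor <;> intro h <;> nlinarith
  rw [hset, Set.ncard_coe_finset, ← hFc, Set.ncard_coe_finset]
  have hfinal : ε * ((F.filter fun ρ => ∃ m, 1 ≤ m ∧ m ≤ M ∧
      m * ε < ∑ j ∈ Finset.range m, X (Tr^[j] ρ)).card : ℝ) ≤ ε * (δ * F.card) := by
    calc _ ≤ _ := hmi
      _ ≤ _ := hmaxle
      _ = _ := by ring
  exact le_of_mul_le_mul_left hfinal hε

end Pool.Agent.RW114.TaskFin
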