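import Pool.Agent.RW114.Stmts

set_option autoImplicit false

namespace Pool.Agent.RW114.TaskForest

open Classical

variable {V : Type}

/-- extension of a configuration on the ball by `η` -/
noncomputable def ext (G : SimpleGraph V) (a : V) (R : ℕ) (η : Conf G)
    (f : ∀ x : Inner G a R, G.neighborSet x.1) : Conf G := fun x =>
  if h : G.dist a x < R then f ⟨x, h⟩ else η x

theorem ext_in (G : SimpleGraph V) (a : V) (R : ℕ) (η : Conf G)
    (f : ∀ x : Inner G a R, G.neighborSet x.1) (x : Inner G a R) :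
    ext G a R η f x.1 = f x := by
  unfold ext
  rw [dif_pos x.2]

theorem ext_out (G : SimpleGraph V) (a : V) (R : ℕ) (η : Conf G)
    (f : ∀ x : Inner G a R, G.neighborSet x.1) (x : V) (h : ¬ G.dist a x < R) :
    ext G a R η f x = η x := by
  unfold ext
  rw [dif_neg h]

theorem ext_inj (G : SimpleGraph V) (a : V) (R : ℕ) (η : Conf G) :
    Function.Injective (ext G a R η) := by
  intro f g hfg
  funext x
  rw [← ext_in G a R η f x, ← ext_in G a R η g x, hfg]

theorem acyc_of_forest (G : SimpleGraph V) (a : V) (R : ℕ) (ρ : Conf G)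
    (hfin : {x | G.dist a x < R}.Finite)
    (hf : (fun x : Inner G a R => ρ x.1) ∈ Forests G a R) :
    Acyc G {x | G.dist a x < R} ρ := by
  intro D hD hne
  by_contra hcon
  push Not at hcon
  apply hf
  obtain ⟨x0, hx0⟩ := hne
  have hDfin : D.Finite := hfin.subset hD
  let nx : V → V := fun x => ((ρ x : G.neighborSet x) : V)
  have hin : ∀ i : ℕ, nx^[i] x0 ∈ D := by
    intro i
    induction i with
    | zero => exact hx0
    | succ i ih => rw [Function.iterate_succ_apply']; exact hcon _ ih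
  have : Finite D := hDfin
  obtain ⟨i, j, hij, he⟩ := Finite.exists_ne_map_eq_of_infinite
    (fun i : ℕ => (⟨nx^[i] x0, hin i⟩ : D))
  have he' : nx^[i] x0 = nx^[j] x0 := congrArg Subtype.val he
  clear he
  wlog hlt : i < j generalizing i j with H
  · exact H j i hij.symm he'.symm (by omega)
  refine ⟨j - i, fun t => ⟨nx^[i + t] x0, hD (hin _)⟩, by omega, ?_, ?_⟩
  · apply Subtype.ext
    simp only [add_zero]
    rw [show i + (j - i) = j by omega, he']
  · intro t _
    simp only
    rw [← add_assoc, Function.iterate_succ_apply']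

theorem forest_of_acyc (G : SimpleGraph V) (a : V) (R : ℕ) (ρ : Conf G)
    (h : Acyc G {x | G.dist a x < R} ρ) :
    (fun x : Inner G a R => ρ x.1) ∈ Forests G a R := by
  rintro ⟨k, c, hk, hck, hc⟩
  obtain ⟨x, ⟨i, hi, rfl⟩, hx⟩ := h {x | ∃ i < k, x = (c i).1}
    (by rintro x ⟨i, _, rfl⟩; exact (c i).2) ⟨_, 0, hk, rfl⟩
  apply hx
  have hci := hc i hi
  simp only at hci
  rcases Nat.lt_or_ge (i + 1) k with h1 | h1
  · exact ⟨i + 1, h1, hci⟩
  · have h2 : i + 1 = k := by omega
    refine ⟨0, hk, ?_⟩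
    rw [hci, h2, hck]

theorem main (hB : TaskBall) : Pool.Agent.RW114.TaskForest := by
  intro V G _ a hG hV R η A hA
  have hfin := (hB V G a hG hV).1 R
  rw [← Set.ncard_image_of_injective _ (ext_inj G a R η)]
  congr 1
  ext ρ
  constructor
  · rintro ⟨f, ⟨hf, ρ', hρ', hfρ⟩, rfl⟩
    refine ⟨⟨fun x hx => ext_out G a R η f x hx, ?_⟩, ?_⟩
    · apply acyc_of_forest G a R _ hfin
      have : (fun x : Inner G a R => ext G a R η f x.1) = f := by
        funext x
        exact ext_in G a R η f x
      rw [this]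
      exact hf
    · refine (hA _ ρ' ?_).2 hρ'
      intro x hx
      have := ext_in G a R η f ⟨x, hx⟩
      exact this.trans (hfρ ⟨x, hx⟩)
  · rintro ⟨⟨hout, hac⟩, hρA⟩
    refine ⟨fun x => ρ x.1, ⟨forest_of_acyc G a R ρ hac, ρ, hρA, fun x => rfl⟩, ?_⟩
    funext x
    by_cases hx : G.dist a x < R
    · exact ext_in G a R η (fun x => ρ x.1) ⟨x, hx⟩
    · rw [ext_out G a R η _ x hx]
      exact (hout x hx).symm

end Pool.Agent.RW114.TaskForest
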