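import Pool.Agent.RW114.Stmts

/-!
# Project RW114, TaskInj: the final configuration determines the initial one
-/

set_option autoImplicit false

open scoped BigOperators ENNReal
open Finset Classical

namespace Pool.Agent.RW114.TaskInj

open Pool.Agent.RW114

variable {V : Type} {G : SimpleGraph V}

theorem rel (hE : TaskE) [G.LocallyFinite] {τ : ∀ x, Equiv.Perm (G.neighborSet x)}
    {ρ₁ ρ₂ : Conf G} {v₁ v₂ : V → ℕ} (hf : fire G τ ρ₁ v₁ = fire G τ ρ₂ v₂) (x : V)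
    (hx : v₂ x ≤ v₁ x) : (τ x ^ (v₁ x - v₂ x)) (ρ₁ x) = ρ₂ x ∧
      ∀ y, ex G τ ρ₁ x y (v₁ x) = ex G τ ρ₁ x y (v₁ x - v₂ x) + ex G τ ρ₂ x y (v₂ x) := by
  have h1 : (τ x ^ (v₁ x)) (ρ₁ x) = (τ x ^ (v₂ x)) (ρ₂ x) := congrFun hf x
  have h2 : v₁ x = v₂ x + (v₁ x - v₂ x) := by omega
  have h3 : (τ x ^ (v₁ x - v₂ x)) (ρ₁ x) = ρ₂ x := by
    rw [h2, pow_add, Equiv.Perm.mul_apply] at h1
    exact (τ x ^ (v₂ x)).injective h1
  refine ⟨h3, fun y => ?_⟩
  have h5 := (hE V G τ ρ₁).2.1 (fun z => v₁ z - v₂ z) x y (v₂ x)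
  have h6 : v₁ x - v₂ x + v₂ x = v₁ x := by omega
  rw [h6] at h5
  rw [h5]
  congr 1
  unfold ex
  have h7 : fire G τ ρ₁ (fun z => v₁ z - v₂ z) x = ρ₂ x := h3
  rw [h7]

theorem half (hE : TaskE) [G.LocallyFinite] {τ : ∀ x, Equiv.Perm (G.neighborSet x)} {a : V}
    {I : Set V} {n : ℕ} {ρ₁ ρ₂ : Conf G} {v₁ v₂ : V → ℕ} (hI : I.Finite)
    (h1 : ∀ y ∈ I, arr G τ a I n ρ₁ v₁ y = v₁ y) (h2 : ∀ y ∈ I, arr G τ a I n ρ₂ v₂ y = v₂ y)
    (hA : Acyc G I ρ₂) (hf : fire G τ ρ₁ v₁ = fire G τ ρ₂ v₂) : ∀ y ∈ I, v₁ y ≤ v₂ y := by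
  by_contra hcon
  push Not at hcon
  set D : Finset V := hI.toFinset.filter fun y => v₂ y < v₁ y with hD
  have hmem : ∀ y, y ∈ D ↔ y ∈ I ∧ v₂ y < v₁ y := by
    intro y
    rw [hD, Finset.mem_filter, Set.Finite.mem_toFinset]
  have hne : (D : Set V).Nonempty := by
    obtain ⟨y, hy, hlt⟩ := hcon
    exact ⟨y, Finset.mem_coe.2 ((hmem y).2 ⟨hy, hlt⟩)⟩
  obtain ⟨x₀, hx₀, hnot⟩ := hA (D : Set V) (fun y hy => ((hmem y).1 (Finset.mem_coe.1 hy)).1) hne
  rw [Finset.mem_coe] at hx₀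
  set e : V → V → ℕ := fun x y => ex G τ ρ₁ x y (v₁ x - v₂ x) with he
  -- the inequality at `y ∈ D`
  have key : ∀ y ∈ D, v₁ y - v₂ y ≤ ∑ x ∈ G.neighborFinset y, if x ∈ D then e x y else 0 := by
    intro y hy
    have hyI := ((hmem y).1 hy).1
    have e1 := h1 y hyI
    have e2 := h2 y hyI
    unfold arr at e1 e2
    have e3 : ∑ x ∈ G.neighborFinset y, (if x ∈ I then ex G τ ρ₁ x y (v₁ x) else 0) ≤
        ∑ x ∈ G.neighborFinset y, (if x ∈ I then ex G τ ρ₂ x y (v₂ x) else 0) +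
          ∑ x ∈ G.neighborFinset y, if x ∈ D then e x y else 0 := by
      rw [← Finset.sum_add_distrib]
      refine Finset.sum_le_sum fun x _ => ?_
      by_cases hxI : x ∈ I
      · rw [if_pos hxI, if_pos hxI]
        rcases le_or_gt (v₁ x) (v₂ x) with hle | hlt
        · have h3 := (rel hE hf.symm x hle).2 y
          omega
        · have h3 := (rel hE hf x hlt.le).2 y
          rw [if_pos ((hmem x).2 ⟨hxI, hlt⟩)]
          show _ ≤ _ + ex G τ ρ₁ x y (v₁ x - v₂ x)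
          omega
      · rw [if_neg hxI]
        exact Nat.zero_le _
    omega
  -- the exits of `x`
  have hout : ∀ x, ∑ y ∈ G.neighborFinset x, e x y = v₁ x - v₂ x := fun x =>
    (hE V G τ ρ₁).2.2.2.1 x _
  have hin : ∀ x, ∑ y ∈ G.neighborFinset x, (if y ∈ D then e x y else 0) ≤ v₁ x - v₂ x := by
    intro x
    rw [← hout x]
    refine Finset.sum_le_sum fun y _ => ?_
    split_ifs
    · exact le_rfl
    · exact Nat.zero_le _
  have hstrict : ∑ y ∈ G.neighborFinset x₀, (if y ∈ D then e x₀ y else 0) < v₁ x₀ - v₂ x₀ := by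
    rw [← hout x₀]
    have hlt := ((hmem x₀).1 hx₀).2
    have h3 := (rel hE hf x₀ hlt.le).1
    refine Finset.sum_lt_sum (fun y _ => ?_) ⟨((ρ₂ x₀ : G.neighborSet x₀) : V), ?_, ?_⟩
    · split_ifs
      · exact le_rfl
      · exact Nat.zero_le _
    · rw [SimpleGraph.mem_neighborFinset]
      exact (ρ₂ x₀).2
    · rw [if_neg (fun hc => hnot (Finset.mem_coe.2 hc))]
      show 0 < ex G τ ρ₁ x₀ _ _
      unfold ex
      rw [Finset.card_pos]
      refine ⟨v₁ x₀ - v₂ x₀ - 1, ?_⟩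
      rw [Finset.mem_filter, Finset.mem_range]
      refine ⟨by omega, ?_⟩
      have h4 : v₁ x₀ - v₂ x₀ - 1 + 1 = v₁ x₀ - v₂ x₀ := by omega
      rw [h4, h3]
  have hswap : ∑ y ∈ D, ∑ x ∈ G.neighborFinset y, (if x ∈ D then e x y else 0) =
      ∑ x ∈ D, ∑ y ∈ G.neighborFinset x, (if y ∈ D then e x y else 0) := by
    have h3 : ∀ (g : V → V → ℕ) (y : V), ∑ x ∈ G.neighborFinset y, (if x ∈ D then g x y else 0) =
        ∑ x ∈ D, if G.Adj y x then g x y else 0 := by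
      intro g y
      rw [← Finset.sum_filter, ← Finset.sum_filter]
      refine Finset.sum_congr ?_ fun _ _ => rfl
      ext x
      constructor
      · intro hx
        obtain ⟨hx1, hx2⟩ := Finset.mem_filter.1 hx
        exact Finset.mem_filter.2 ⟨hx2, (SimpleGraph.mem_neighborFinset _ _ _).1 hx1⟩
      · intro hx
        obtain ⟨hx1, hx2⟩ := Finset.mem_filter.1 hx
        exact Finset.mem_filter.2 ⟨(SimpleGraph.mem_neighborFinset _ _ _).2 hx2, hx1⟩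
    have h4 : ∀ x, ∑ y ∈ G.neighborFinset x, (if y ∈ D then e x y else 0) =
        ∑ y ∈ D, if G.Adj x y then e x y else 0 := fun x => h3 (fun y x => e x y) x
    rw [Finset.sum_congr rfl fun y _ => h3 e y, Finset.sum_congr rfl fun x _ => h4 x,
      Finset.sum_comm]
    refine Finset.sum_congr rfl fun x _ => Finset.sum_congr rfl fun y _ => ?_
    simp only [G.adj_comm y x]
  have hsum : ∑ y ∈ D, (v₁ y - v₂ y) < ∑ y ∈ D, (v₁ y - v₂ y) := by
    calc ∑ y ∈ D, (v₁ y - v₂ y) ≤ ∑ y ∈ D, ∑ x ∈ G.neighborFinset y,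
          (if x ∈ D then e x y else 0) := Finset.sum_le_sum key
      _ = ∑ x ∈ D, ∑ y ∈ G.neighborFinset x, (if y ∈ D then e x y else 0) := hswap
      _ < ∑ x ∈ D, (v₁ x - v₂ x) :=
          Finset.sum_lt_sum (fun x _ => hin x) ⟨x₀, hx₀, hstrict⟩
  exact lt_irrefl _ hsum

theorem main (hE : TaskE) : Pool.Agent.RW114.TaskInj := by
  intro V G _ τ a I n ρ₁ ρ₂ v₁ v₂ hI h1 h2 h0 hA1 hA2 hf
  have e1 := half hE hI h1 h2 hA2 hf
  have e2 := half hE hI h2 h1 hA1 hf.symm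
  have hv : v₁ = v₂ := by
    funext y
    by_cases hy : y ∈ I
    · exact le_antisymm (e1 y hy) (e2 y hy)
    · rw [(h0 y hy).1, (h0 y hy).2]
  refine ⟨?_, hv⟩
  subst hv
  funext x
  exact (τ x ^ (v₁ x)).injective (congrFun hf x)

end Pool.Agent.RW114.TaskInj
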