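import Pool.Agent.RW114.TaskMono

set_option autoImplicit false

open scoped BigOperators Classical

namespace Pool.Agent.RW114.TaskLim

open Pool.Agent.RW114

theorem main (hE : TaskE) : Pool.Agent.RW114.TaskLim := by
  intro V G _ τ a n ρ _ hfin hex hbdd
  set W : V → ℕ := fun y => sSup (Set.range fun R : ℕ => odo G τ a {x | G.dist a x < R} n ρ y)
    with hW
  intro y _
  have hatt : ∀ x, ∃ R : ℕ, odo G τ a {x | G.dist a x < R} n ρ x = W x := by
    intro x
    have := Nat.sSup_mem (Set.range_nonempty fun R : ℕ => odo G τ a {x | G.dist a x < R} n ρ x)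
      (hbdd x)
    obtain ⟨R, hR⟩ := this
    exact ⟨R, hR⟩
  choose f hf using hatt
  set R : ℕ := max ((G.neighborFinset y).sup (fun x => max (f x) (G.dist a x + 1)))
    (G.dist a y + 1) with hR
  have hRx : ∀ x ∈ G.neighborFinset y, f x ≤ R ∧ G.dist a x < R := by
    intro x hx
    have h1 : max (f x) (G.dist a x + 1) ≤
        (G.neighborFinset y).sup (fun x => max (f x) (G.dist a x + 1)) :=
      Finset.le_sup (f := fun x => max (f x) (G.dist a x + 1)) hx
    have h2 : (G.neighborFinset y).sup (fun x => max (f x) (G.dist a x + 1)) ≤ R := le_max_left _ _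
    have h3 := le_max_left (f x) (G.dist a x + 1)
    have h4 := le_max_right (f x) (G.dist a x + 1)
    constructor
    · omega
    · omega
  have hRy : G.dist a y < R := by
    have h2 : G.dist a y + 1 ≤ R := le_max_right _ _
    omega
  obtain ⟨hs, hfix, hl, hz⟩ := Pool.Agent.RW114.TaskOdo.main hE V G τ a {x | G.dist a x < R} n ρ
    (hfin R) (hex R)
  have h1 : arr G τ a Set.univ n ρ W y ≤
      arr G τ a {x | G.dist a x < R} n ρ (odo G τ a {x | G.dist a x < R} n ρ) y := by
    unfold arr
    apply add_le_add (le_refl _)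
    apply Finset.sum_le_sum
    intro x hx
    obtain ⟨hfx, hdx⟩ := hRx x hx
    rw [if_pos (Set.mem_univ x), if_pos (show x ∈ {x | G.dist a x < R} from hdx)]
    apply (hE V G τ ρ).1
    rw [← hf x]
    exact Pool.Agent.RW114.TaskMono.main hE V G τ a {z | G.dist a z < f x} {z | G.dist a z < R}
      n n ρ (fun z hz => lt_of_lt_of_le (show G.dist a z < f x from hz) hfx) (le_refl _) (hfin R) (hex R) x
  refine le_trans h1 (le_trans (hs y hRy) ?_)
  exact le_csSup (hbdd y) ⟨R, rfl⟩

end Pool.Agent.RW114.TaskLim
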