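import Pool.Agent.RW114.Stmts

set_option autoImplicit false

namespace Pool.Agent.RW114.TaskLocal

open Pool.Agent.RW114

variable {V : Type}

lemma ex_congr (G : SimpleGraph V) (τ : ∀ x, Equiv.Perm (G.neighborSet x)) (ρ ρ' : Conf G)
    (x y : V) (k : ℕ) (h : ρ x = ρ' x) : ex G τ ρ x y k = ex G τ ρ' x y k := by
  unfold ex; rw [h]

lemma arr_congr (G : SimpleGraph V) [G.LocallyFinite] (τ : ∀ x, Equiv.Perm (G.neighborSet x))
    (a : V) (I : Set V) (n : ℕ) (ρ ρ' : Conf G) (h : ∀ x ∈ I, ρ x = ρ' x) (v : V → ℕ) (y : V) :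
    arr G τ a I n ρ v y = arr G τ a I n ρ' v y := by
  unfold arr
  congr 1
  refine Finset.sum_congr rfl fun x _ => ?_
  by_cases hx : x ∈ I
  · rw [if_pos hx, if_pos hx, ex_congr G τ ρ ρ' x y _ (h x hx)]
  · rw [if_neg hx, if_neg hx]

theorem main : Pool.Agent.RW114.TaskLocal := by
  intro V G _ τ a I n ρ ρ' h
  constructor
  · funext y
    unfold odo
    by_cases hy : y ∈ I
    · rw [if_pos hy, if_pos hy]
      congr 1
      ext k
      constructor
      · rintro ⟨v, hv, hk⟩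
        exact ⟨v, fun z hz => by rw [← arr_congr G τ a I n ρ ρ' h]; exact hv z hz, hk⟩
      · rintro ⟨v, hv, hk⟩
        exact ⟨v, fun z hz => by rw [arr_congr G τ a I n ρ ρ' h]; exact hv z hz, hk⟩
    · rw [if_neg hy, if_neg hy]
  · constructor
    · intro hA D hD hne
      obtain ⟨x, hx, hx'⟩ := hA D hD hne
      exact ⟨x, hx, by rw [← h x (hD hx)]; exact hx'⟩
    · intro hA D hD hne
      obtain ⟨x, hx, hx'⟩ := hA D hD hne
      exact ⟨x, hx, by rw [h x (hD hx)]; exact hx'⟩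

end Pool.Agent.RW114.TaskLocal
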