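import Pool.Agent.RW114.Stmts

set_option autoImplicit false

open scoped BigOperators ENNReal
open MeasureTheory Filter Topology Classical

namespace Pool.Agent.RW114.TaskLow

theorem main (hE : Pool.Agent.RW114.TaskE) : Pool.Agent.RW114.TaskLow := by
  intro V G _ τ a hS hG t
  induction t with
  | zero =>
    intro y
    refine ⟨0, le_refl 0, ?_⟩
    intro R n ρ v hR hv
    have h1 : arr G τ a {x | G.dist a x < R} n ρ v y ≤ v y := hv y (by simpa using hR)
    have h2 : (if y = a then n else 0) ≤ v y := by
      refine le_trans ?_ h1
      unfold arr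
      exact Nat.le_add_right _ _
    have h3 : ((if y = a then n else 0 : ℕ) : ℝ) ≤ (v y : ℝ) := by exact_mod_cast h2
    simp only [zero_add, Finset.sum_range_one, prob, sub_zero]
    refine le_trans (le_of_eq ?_) h3
    split_ifs <;> simp
  | succ t ih =>
    intro y
    choose C hC0 hC using ih
    refine ⟨∑ x ∈ G.neighborFinset y, (C x / G.degree x + 1), ?_, ?_⟩
    · refine Finset.sum_nonneg fun x _ => ?_
      have := hC0 x
      positivity
    intro R n ρ v hR hv
    have h1 : arr G τ a {x | G.dist a x < R} n ρ v y ≤ v y :=
      hv y (by show G.dist a y < R; omega)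
    have hd : ∀ x ∈ G.neighborFinset y, G.dist a x + t < R := by
      intro x hx
      have hadj : G.Adj y x := by simpa using hx
      have : G.dist a x ≤ G.dist a y + G.dist y x := hG.dist_triangle
      have h1 : G.dist y x = 1 := SimpleGraph.dist_eq_one_iff_adj.2 hadj
      omega
    have h3 : ((arr G τ a {x | G.dist a x < R} n ρ v y : ℕ) : ℝ) ≤ (v y : ℝ) := by
      exact_mod_cast h1
    refine le_trans ?_ h3
    have h4 : ((arr G τ a {x | G.dist a x < R} n ρ v y : ℕ) : ℝ) =
        (if y = a then (n : ℝ) else 0) +
          ∑ x ∈ G.neighborFinset y, (ex G τ ρ x y (v x) : ℝ) := by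
      unfold arr
      push_cast
      congr 1
      refine Finset.sum_congr rfl fun x hx => ?_
      have hx' := hd x hx
      have : x ∈ {x | G.dist a x < R} := by
        show G.dist a x < R
        omega
      simp [this]
    rw [h4]
    have h5 : ∀ x ∈ G.neighborFinset y,
        ((n : ℝ) * ∑ s ∈ Finset.range (t + 1), prob G a s x - C x) / G.degree x - 1 ≤
          (ex G τ ρ x y (v x) : ℝ) := by
      intro x hx
      have hadj : G.Adj x y := by
        have : G.Adj y x := by simpa using hx
        exact this.symm
      have h6 := ((hE V G τ ρ).2.2.2.2 hS x y (v x) hadj).1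
      refine le_trans ?_ h6
      have h7 := hC x R n ρ v (hd x hx) hv
      have h8 : (0 : ℝ) ≤ G.degree x := by positivity
      have := div_le_div_of_nonneg_right h7 h8
      linarith
    have h9 := Finset.sum_le_sum h5
    have h10 : (n : ℝ) * ∑ s ∈ Finset.range (t + 1 + 1), prob G a s y -
        ∑ x ∈ G.neighborFinset y, (C x / G.degree x + 1) =
        (if y = a then (n : ℝ) else 0) + ∑ x ∈ G.neighborFinset y,
          (((n : ℝ) * ∑ s ∈ Finset.range (t + 1), prob G a s x - C x) / G.degree x - 1) := by
      rw [Finset.sum_range_succ']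
      have h11 : ∀ s, prob G a (s + 1) y = ∑ x ∈ G.neighborFinset y, prob G a s x / G.degree x :=
        fun s => rfl
      have h12 : prob G a 0 y = if y = a then 1 else 0 := rfl
      simp only [h11, h12]
      rw [Finset.sum_comm]
      have h13 : (n : ℝ) * (if y = a then (1 : ℝ) else 0) = if y = a then (n : ℝ) else 0 := by
        split_ifs <;> simp
      rw [mul_add, h13, Finset.mul_sum]
      rw [add_comm, add_sub_assoc, ← Finset.sum_sub_distrib]
      congr 1
      refine Finset.sum_congr rfl fun x _ => ?_
      rw [← Finset.sum_div]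
      ring
    rw [h10]
    linarith

end Pool.Agent.RW114.TaskLow
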