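import Pool.Agent.RW114.Stmts

/-!
# Project RW114, TaskMax: the maximal inequality for a permutation of a finite set
-/

set_option autoImplicit false

open scoped BigOperators ENNReal
open Finset Classical

namespace Pool.Agent.RW114.TaskMax

theorem main : Pool.Agent.RW114.TaskMax := by
  intro α F T X M ε hε hT
  set f : α → ℝ := fun ρ => X ρ - ε with hf
  set S : ℕ → α → ℝ := fun m ρ => ∑ j ∈ range m, f (T^[j] ρ) with hS
  have hS1 : ∀ m ρ, S (m + 1) ρ = f ρ + S m (T ρ) := by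
    intro m ρ
    show ∑ j ∈ range (m + 1), f (T^[j] ρ) = f ρ + ∑ j ∈ range m, f (T^[j] (T ρ))
    rw [Finset.sum_range_succ', add_comm]
    rfl
  have hne : (range (M + 1)).Nonempty := ⟨0, by simp⟩
  set h : α → ℝ := fun ρ => (range (M + 1)).sup' hne (fun m => S m ρ) with hh
  have h1 : ∀ ρ m, m ≤ M → S m ρ ≤ h ρ := fun ρ m hm =>
    Finset.le_sup' (fun m => S m ρ) (Finset.mem_range.2 (by omega))
  have h2 : ∀ ρ, ∃ m ≤ M, h ρ = S m ρ := by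
    intro ρ
    obtain ⟨m, hm, he⟩ := Finset.exists_mem_eq_sup' hne (fun m => S m ρ)
    exact ⟨m, by have := Finset.mem_range.1 hm; omega, he⟩
  have h0 : ∀ ρ, 0 ≤ h ρ := by
    intro ρ
    have := h1 ρ 0 (Nat.zero_le _)
    simpa [hS] using this
  have hSX : ∀ m ρ, S m ρ = (∑ j ∈ range m, X (T^[j] ρ)) - m * ε := by
    intro m ρ
    show ∑ j ∈ range m, (X (T^[j] ρ) - ε) = _
    rw [Finset.sum_sub_distrib, Finset.sum_const, Finset.card_range, nsmul_eq_mul]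
  set A := F.filter fun ρ => ∃ m, 1 ≤ m ∧ m ≤ M ∧
      m * ε < ∑ j ∈ Finset.range m, X (T^[j] ρ) with hA
  have hAf : ∀ ρ ∈ A, h ρ - h (T ρ) ≤ f ρ := by
    intro ρ hρ
    obtain ⟨-, m, hm1, hmM, hlt⟩ := Finset.mem_filter.1 hρ
    have hpos : 0 < h ρ := by
      refine lt_of_lt_of_le ?_ (h1 ρ m hmM)
      rw [hSX]
      linarith
    obtain ⟨m', hm', he⟩ := h2 ρ
    rcases m' with _ | m'
    · exfalso
      rw [he] at hpos
      simp [hS] at hpos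
    · rw [he, hS1]
      have := h1 (T ρ) m' (by omega)
      linarith
  have hout : ∀ ρ ∈ F, ρ ∉ A → h ρ = 0 := by
    intro ρ hρ hnA
    obtain ⟨m', hm', he⟩ := h2 ρ
    rcases m' with _ | m'
    · rw [he]
      simp [hS]
    · refine le_antisymm ?_ (h0 ρ)
      by_contra hlt
      rw [not_le] at hlt
      apply hnA
      rw [hA, Finset.mem_filter]
      refine ⟨hρ, m' + 1, by omega, hm', ?_⟩
      rw [he, hSX] at hlt
      linarith
  have hsub : A ⊆ F := Finset.filter_subset _ _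
  have e1 : ∑ ρ ∈ A, h ρ = ∑ ρ ∈ F, h ρ :=
    Finset.sum_subset hsub fun ρ hρ hn => hout ρ hρ hn
  have e2 : ∑ ρ ∈ A, h (T ρ) ≤ ∑ ρ ∈ F, h (T ρ) :=
    Finset.sum_le_sum_of_subset_of_nonneg hsub fun ρ _ _ => h0 _
  have e3 : ∑ ρ ∈ F, h (T ρ) = ∑ ρ ∈ F, h ρ := by
    refine Finset.sum_bij (fun ρ _ => T ρ) ?_ ?_ ?_ ?_
    · intro ρ hρ
      exact Finset.mem_coe.1 (hT.mapsTo (Finset.mem_coe.2 hρ))
    · intro ρ hρ ρ' hρ' he
      exact hT.injOn (Finset.mem_coe.2 hρ) (Finset.mem_coe.2 hρ') he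
    · intro ρ hρ
      obtain ⟨ρ', h1, h2⟩ := hT.surjOn (Finset.mem_coe.2 hρ)
      exact ⟨ρ', Finset.mem_coe.1 h1, h2⟩
    · intro ρ _
      rfl
  have e4 : 0 ≤ ∑ ρ ∈ A, f ρ := by
    have h3 : ∑ ρ ∈ A, (h ρ - h (T ρ)) ≤ ∑ ρ ∈ A, f ρ := Finset.sum_le_sum hAf
    rw [Finset.sum_sub_distrib] at h3
    linarith
  have e5 : ∑ ρ ∈ A, f ρ = ∑ ρ ∈ A, X ρ - ε * A.card := by
    show ∑ ρ ∈ A, (X ρ - ε) = _
    rw [Finset.sum_sub_distrib, Finset.sum_const, nsmul_eq_mul, mul_comm]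
  have e6 : ∑ ρ ∈ A, X ρ ≤ ∑ ρ ∈ A, max (X ρ) 0 := Finset.sum_le_sum fun ρ _ => le_max_left _ _
  have e7 : ∑ ρ ∈ A, max (X ρ) 0 ≤ ∑ ρ ∈ F, max (X ρ) 0 :=
    Finset.sum_le_sum_of_subset_of_nonneg hsub fun ρ _ _ => le_max_right _ _
  have e8 : ε * (A.card : ℝ) ≤ ∑ ρ ∈ F, max (X ρ) 0 := by linarith
  exact e8

end Pool.Agent.RW114.TaskMax
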