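import Pool.Agent.RW114.Stmts

/-!
# The mean of the odometer
-/

set_option autoImplicit false

open scoped BigOperators ENNReal
open MeasureTheory Filter Topology Classical

namespace Pool.Agent.RW114.TaskMean

variable {V : Type}

theorem odo_zero (hO : TaskOdo) (G : SimpleGraph V) [G.LocallyFinite]
    (τ : ∀ x, Equiv.Perm (G.neighborSet x)) (a : V) (I : Set V) (hI : I.Finite) (ρ : Conf G) :
    odo G τ a I 0 ρ = 0 := by
  have h0 : Super G τ a I 0 ρ (fun _ => 0) := by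
    intro y _
    simp [arr, ex]
  obtain ⟨-, -, h3, h4⟩ := hO V G τ a I 0 ρ hI ⟨_, h0⟩
  funext y
  by_cases hy : y ∈ I
  · exact Nat.le_zero.1 (h3 _ h0 y hy)
  · exact h4 y hy

theorem main (hE : TaskE) (hSup : TaskSuper) (hO : TaskOdo) (hA : TaskAcyc) (hInj : TaskInj)
    (hC : TaskCoc) (hPer : TaskPer) : Pool.Agent.RW114.TaskMean := by
  intro V G _ τ a I η F hτ hI hesc hsum hF
  have hS : ∀ (n : ℕ) (ρ : Conf G), ∃ v, Super G τ a I n ρ v := fun n ρ =>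
    hSup V G τ a I n ρ hτ hI hesc
  have hmem : ∀ ρ, ρ ∈ F ↔ ρ ∈ FF G I η := fun ρ => by
    rw [← hF, Finset.mem_coe]
  have hmaps : Set.MapsTo (sig G τ a I) F F := by
    intro ρ hρ
    rw [Finset.mem_coe, hmem] at hρ ⊢
    obtain ⟨-, -, -, h4⟩ := hO V G τ a I 1 ρ hI (hS 1 ρ)
    refine ⟨fun x hx => ?_, hA V G τ a I 1 ρ hI (hS 1 ρ) hρ.2⟩
    rw [← hρ.1 x hx]
    simp only [sig, fire, h4 x hx, pow_zero, Equiv.Perm.coe_one, id_eq]
  have hinj : Set.InjOn (sig G τ a I) F := by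
    intro ρ₁ h1 ρ₂ h2 h
    rw [Finset.mem_coe, hmem] at h1 h2
    obtain ⟨-, e1, -, z1⟩ := hO V G τ a I 1 ρ₁ hI (hS 1 ρ₁)
    obtain ⟨-, e2, -, z2⟩ := hO V G τ a I 1 ρ₂ hI (hS 1 ρ₂)
    exact (hInj V G τ a I 1 ρ₁ ρ₂ _ _ hI e1 e2 (fun y hy => ⟨z1 y hy, z2 y hy⟩) h1.2 h2.2 h).1
  have hbij : Set.BijOn (sig G τ a I) F F :=
    ⟨hmaps, hinj, Finset.surjOn_of_injOn_of_card_le _ hmaps hinj le_rfl⟩
  have hcoc : ∀ (n : ℕ) (ρ : Conf G),
      odo G τ a I (1 + n) ρ = odo G τ a I 1 ρ + odo G τ a I n (sig G τ a I ρ) := fun n ρ =>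
    hC V G τ a I 1 n ρ hI hS
  have hform : ∀ (n : ℕ) (ρ : Conf G) (y : V), odo G τ a I n ρ y =
      ∑ i ∈ Finset.range n, odo G τ a I 1 ((sig G τ a I)^[i] ρ) y := by
    intro n
    induction n with
    | zero => intro ρ y; rw [odo_zero hO G τ a I hI]; simp
    | succ n ih =>
      intro ρ y
      rw [add_comm n 1, hcoc n ρ, Pi.add_apply, ih (sig G τ a I ρ) y, add_comm 1 n,
        Finset.sum_range_succ']
      simp only [Function.iterate_succ_apply, Function.iterate_zero, id_eq]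
      ring
  have hfire : ∀ (n : ℕ) (ρ : Conf G),
      fire G τ ρ (odo G τ a I n ρ) = (sig G τ a I)^[n] ρ := by
    intro n
    induction n with
    | zero =>
      intro ρ
      rw [odo_zero hO G τ a I hI]
      funext x
      simp [fire]
    | succ n ih =>
      intro ρ
      obtain ⟨-, -, hff, -⟩ := hE V G τ ρ
      rw [add_comm n 1, hcoc n ρ, ← hff, add_comm 1 n, Function.iterate_succ_apply, ← ih]
      rfl
  refine ⟨hbij, hform, ?_⟩
  intro n y hy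
  obtain ⟨N, hN, hper⟩ : ∃ N : ℕ, 0 < N ∧ ∀ ρ ∈ F, (sig G τ a I)^[N] ρ = ρ := by
    let e : Equiv.Perm ↥(F : Set (Conf G)) := hbij.equiv
    refine ⟨orderOf e, orderOf_pos e, fun ρ hρ => ?_⟩
    have h1 : ∀ (k : ℕ) (ρ : Conf G) (hρ : ρ ∈ (F : Set (Conf G))),
        ((e ^ k) ⟨ρ, hρ⟩ : Conf G) = (sig G τ a I)^[k] ρ := by
      intro k
      induction k with
      | zero => intro ρ hρ; simp
      | succ k ih =>
        intro ρ hρ
        rw [pow_succ, Equiv.Perm.mul_apply, Function.iterate_succ_apply]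
        exact ih _ (hmaps hρ)
    rw [← h1 _ ρ hρ, pow_orderOf_eq_one]
    rfl
  have hshift : ∀ i : ℕ, ∑ ρ ∈ F, (odo G τ a I 1 ((sig G τ a I)^[i] ρ) y : ℝ) =
      ∑ ρ ∈ F, (odo G τ a I 1 ρ y : ℝ) := by
    intro i
    have hb := hbij.iterate i
    exact Finset.sum_nbij ((sig G τ a I)^[i]) (fun ρ hρ => hb.mapsTo hρ) hb.injOn hb.surjOn
      (fun ρ _ => rfl)
  have hmean : ∀ m : ℕ, ∑ ρ ∈ F, (odo G τ a I m ρ y : ℝ) =
      m * ∑ ρ ∈ F, (odo G τ a I 1 ρ y : ℝ) := by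
    intro m
    have h1 : ∀ ρ ∈ F, (odo G τ a I m ρ y : ℝ) =
        ∑ i ∈ Finset.range m, (odo G τ a I 1 ((sig G τ a I)^[i] ρ) y : ℝ) := by
      intro ρ _
      rw [hform m ρ y]
      push_cast
      rfl
    rw [Finset.sum_congr rfl h1, Finset.sum_comm, Finset.sum_congr rfl fun i _ => hshift i,
      Finset.sum_const, Finset.card_range, nsmul_eq_mul]
  have hbound : ∑ ρ ∈ F, (odo G τ a I N ρ y : ℝ) ≤ F.card * (N * green G a y) := by
    rw [← nsmul_eq_mul, ← Finset.sum_const]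
    refine Finset.sum_le_sum fun ρ hρ => ?_
    obtain ⟨-, e1, -, -⟩ := hO V G τ a I N ρ hI (hS N ρ)
    exact hPer V G τ a I N ρ _ hτ hI hesc hsum e1 (by rw [hfire N ρ]; exact hper ρ hρ) y hy
  rw [hmean N] at hbound
  have hN' : (0 : ℝ) < N := Nat.cast_pos.2 hN
  have h1 : ∑ ρ ∈ F, (odo G τ a I 1 ρ y : ℝ) ≤ F.card * green G a y := by
    have : (N : ℝ) * ∑ ρ ∈ F, (odo G τ a I 1 ρ y : ℝ) ≤ N * (F.card * green G a y) := by
      linarith
    exact le_of_mul_le_mul_left this hN'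
  rw [hmean n]
  have hn : (0 : ℝ) ≤ n := Nat.cast_nonneg n
  calc (n : ℝ) * ∑ ρ ∈ F, (odo G τ a I 1 ρ y : ℝ) ≤ n * (F.card * green G a y) :=
        mul_le_mul_of_nonneg_left h1 hn
    _ = F.card * (n * green G a y) := by ring

end Pool.Agent.RW114.TaskMean
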