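import Pool.Agent.RW114.TaskOdo

set_option autoImplicit false

open scoped BigOperators Classical

namespace Pool.Agent.RW114.TaskMono

open Pool.Agent.RW114

theorem main (hE : TaskE) : Pool.Agent.RW114.TaskMono := by
  intro V G _ τ a I J n m ρ hIJ hnm hJ hex y
  obtain ⟨hs, -, -, -⟩ := Pool.Agent.RW114.TaskOdo.main hE V G τ a J m ρ hJ hex
  by_cases hy : y ∈ I
  · apply Pool.Agent.RW114.TaskOdo.odo_le G τ a I n ρ _ _ y hy
    intro z hz
    exact le_trans (Pool.Agent.RW114.TaskOdo.arr_mono hE G τ a I J n m ρ _ _ hIJ hnm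
      (fun _ _ => le_refl _) z) (hs z (hIJ hz))
  · have h0 : odo G τ a I n ρ y = 0 := by
      unfold odo
      rw [if_neg hy]
    rw [h0]
    exact Nat.zero_le _

end Pool.Agent.RW114.TaskMono
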