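import Pool.Agent.RW114.Stmts

set_option autoImplicit false

open scoped BigOperators Classical

namespace Pool.Agent.RW114.TaskOdo

open Pool.Agent.RW114

theorem arr_mono (hE : TaskE) {V : Type} (G : SimpleGraph V) [G.LocallyFinite]
    (τ : ∀ x, Equiv.Perm (G.neighborSet x)) (a : V) (I J : Set V) (n m : ℕ) (ρ : Conf G)
    (v w : V → ℕ) (hIJ : I ⊆ J) (hnm : n ≤ m) (hvw : ∀ x ∈ I, v x ≤ w x) (y : V) :
    arr G τ a I n ρ v y ≤ arr G τ a J m ρ w y := by
  unfold arr
  apply add_le_add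
  · split_ifs
    · exact hnm
    · exact le_refl _
  · apply Finset.sum_le_sum
    intro x _
    by_cases hx : x ∈ I
    · rw [if_pos hx, if_pos (hIJ hx)]
      exact (hE V G τ ρ).1 x y _ _ (hvw x hx)
    · rw [if_neg hx]
      exact Nat.zero_le _

theorem odo_le {V : Type} (G : SimpleGraph V) [G.LocallyFinite]
    (τ : ∀ x, Equiv.Perm (G.neighborSet x)) (a : V) (I : Set V) (n : ℕ) (ρ : Conf G)
    (v : V → ℕ) (hv : Super G τ a I n ρ v) (y : V) (hy : y ∈ I) :
    odo G τ a I n ρ y ≤ v y := by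
  unfold odo
  rw [if_pos hy]
  exact Nat.sInf_le ⟨v, hv, rfl⟩

theorem main (hE : TaskE) : Pool.Agent.RW114.TaskOdo := by
  intro V G _ τ a I n ρ _ hex
  have hle : ∀ v, Super G τ a I n ρ v → ∀ y, y ∈ I → odo G τ a I n ρ y ≤ v y :=
    fun v hv y hy => odo_le G τ a I n ρ v hv y hy
  have hsup : Super G τ a I n ρ (odo G τ a I n ρ) := by
    intro y hy
    obtain ⟨v0, hv0⟩ := hex
    have hmem : odo G τ a I n ρ y ∈ {k | ∃ v, Super G τ a I n ρ v ∧ v y = k} := by
      have h1 : odo G τ a I n ρ y = sInf {k | ∃ v, Super G τ a I n ρ v ∧ v y = k} := by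
        unfold odo
        rw [if_pos hy]
      rw [h1]
      exact Nat.sInf_mem ⟨v0 y, v0, hv0, rfl⟩
    obtain ⟨v, hv, hvy⟩ := hmem
    rw [← hvy]
    exact le_trans (arr_mono hE G τ a I I n n ρ _ v (le_refl _) (le_refl _)
      (fun x hx => hle v hv x hx) y) (hv y hy)
  refine ⟨hsup, ?_, hle, ?_⟩
  · intro y hy
    apply le_antisymm (hsup y hy)
    have hw : Super G τ a I n ρ (fun z => arr G τ a I n ρ (odo G τ a I n ρ) z) := by
      intro z hz
      exact arr_mono hE G τ a I I n n ρ _ _ (le_refl _) (le_refl _) (fun x hx => hsup x hx) z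
    exact hle _ hw y hy
  · intro y hy
    unfold odo
    rw [if_neg hy]

end Pool.Agent.RW114.TaskOdo
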