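import Pool.Agent.RW114.Stmts

/-!
# Over a period the odometer is at most the Green function
-/

set_option autoImplicit false

open scoped BigOperators ENNReal
open MeasureTheory Filter Topology Classical

namespace Pool.Agent.RW114.TaskPer

variable {V : Type}

theorem prob_nonneg (G : SimpleGraph V) [G.LocallyFinite] (a : V) (t : ℕ) :
    ∀ x, 0 ≤ prob G a t x := by
  induction t with
  | zero =>
    intro x
    show (0 : ℝ) ≤ if x = a then 1 else 0
    split_ifs <;> norm_num
  | succ t ih =>
    intro x
    show (0 : ℝ) ≤ ∑ z ∈ G.neighborFinset x, prob G a t z / G.degree z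
    exact Finset.sum_nonneg fun z _ => div_nonneg (ih z) (Nat.cast_nonneg _)

theorem green_nonneg (G : SimpleGraph V) [G.LocallyFinite] (a x : V) : 0 ≤ green G a x :=
  tsum_nonneg fun t => prob_nonneg G a t x

theorem green_eq (G : SimpleGraph V) [G.LocallyFinite] (a : V)
    (hs : ∀ x, Summable fun t => prob G a t x) (y : V) :
    green G a y = (if y = a then 1 else 0) + ∑ x ∈ G.neighborFinset y, green G a x / G.degree x := by
  unfold green
  rw [(hs y).tsum_eq_zero_add]
  have h0 : prob G a 0 y = if y = a then 1 else 0 := rfl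
  have h1 : ∀ t, prob G a (t + 1) y = ∑ x ∈ G.neighborFinset y, prob G a t x / G.degree x :=
    fun t => rfl
  rw [h0]
  simp only [h1]
  rw [Summable.tsum_finsetSum (fun x _ => (hs x).div_const _)]
  congr 1
  exact Finset.sum_congr rfl fun x _ => tsum_div_const

theorem main (hE : TaskE) : TaskPer := by
  intro V G _ τ a I n ρ v hτ hI hEsc hs harr hfire y0 hy0
  have hdeg : ∀ y ∈ I, 0 < (G.degree y : ℝ) := by
    intro y hy
    obtain ⟨x, hx, z, hz, hxz⟩ := hEsc {y} (by simpa using hy) (Set.singleton_nonempty y)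
    rw [Set.mem_singleton_iff] at hx
    subst hx
    exact_mod_cast (G.degree_pos_iff_exists_adj x).2 ⟨z, hxz⟩
  have hex : ∀ x y, G.Adj x y → (ex G τ ρ x y (v x) : ℝ) = (v x : ℝ) / G.degree x := by
    intro x y hxy
    refine (((hE V G τ ρ).2.2.2.2 hτ x y (v x) hxy).2) ?_
    exact congrFun hfire x
  set g : V → ℝ := fun x => if x ∈ I then ((v x : ℝ) - n * green G a x) / G.degree x else 0 with hg
  have key : ∀ y ∈ I, (G.degree y : ℝ) * g y ≤ ∑ x ∈ G.neighborFinset y, g x := by
    intro y hy
    have h1 : (G.degree y : ℝ) * g y = (v y : ℝ) - n * green G a y := by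
      simp only [hg, if_pos hy]
      rw [mul_div_cancel₀ _ (hdeg y hy).ne']
    have h2 : (v y : ℝ) = (if y = a then (n : ℝ) else 0) +
        ∑ x ∈ G.neighborFinset y, if x ∈ I then (v x : ℝ) / G.degree x else 0 := by
      have h3 := congrArg (Nat.cast : ℕ → ℝ) (harr y hy)
      rw [← h3]
      unfold arr
      push_cast
      congr 1
      refine Finset.sum_congr rfl fun x hx => ?_
      rw [SimpleGraph.mem_neighborFinset] at hx
      split_ifs
      · exact hex x y hx.symm
      · rfl
    rw [h1, h2, green_eq G a hs y, mul_add, Finset.mul_sum]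
    have h4 : (n : ℝ) * (if y = a then 1 else 0) = if y = a then (n : ℝ) else 0 := by
      split_ifs <;> simp
    rw [h4]
    have h5 : (∑ x ∈ G.neighborFinset y, if x ∈ I then (v x : ℝ) / G.degree x else 0) -
        ∑ x ∈ G.neighborFinset y, (n : ℝ) * (green G a x / G.degree x) ≤
        ∑ x ∈ G.neighborFinset y, g x := by
      rw [← Finset.sum_sub_distrib]
      refine Finset.sum_le_sum fun x _ => ?_
      simp only [hg]
      split_ifs with h
      · rw [sub_div]
        apply le_of_eq
        ring
      · have := green_nonneg G a x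
        have : 0 ≤ (n : ℝ) * (green G a x / G.degree x) := by positivity
        linarith
    linarith
  by_contra hcon
  push Not at hcon
  obtain ⟨x0, hx0, hmax⟩ := Set.exists_max_image I g hI ⟨y0, hy0⟩
  have hpos : 0 < g x0 := by
    refine lt_of_lt_of_le ?_ (hmax y0 hy0)
    simp only [hg, if_pos hy0]
    exact div_pos (by linarith) (hdeg y0 hy0)
  obtain ⟨x, hx, y, hy, hxy⟩ := hEsc {z | z ∈ I ∧ g z = g x0} (fun z hz => hz.1) ⟨x0, hx0, rfl⟩
  have hle : ∀ z, g z ≤ g x0 := by
    intro z
    by_cases hz : z ∈ I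
    · exact hmax z hz
    · simp only [hg, if_neg hz] at hpos ⊢
      exact hpos.le
  have hlt : g y < g x0 := by
    refine lt_of_le_of_ne (hle y) ?_
    intro h
    by_cases hyI : y ∈ I
    · exact hy ⟨hyI, h⟩
    · have : g y = 0 := by simp only [hg, if_neg hyI]
      rw [this] at h
      exact hpos.ne h
  have h1 := key x hx.1
  rw [hx.2] at h1
  have h2 : ∑ z ∈ G.neighborFinset x, g z < ∑ _z ∈ G.neighborFinset x, g x0 := by
    refine Finset.sum_lt_sum (fun z _ => hle z) ⟨y, ?_, hlt⟩
    rw [SimpleGraph.mem_neighborFinset]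
    exact hxy
  rw [Finset.sum_const, nsmul_eq_mul, SimpleGraph.card_neighborFinset_eq_degree] at h2
  linarith

end Pool.Agent.RW114.TaskPer
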