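import Pool.Agent.RW114.Stmts

set_option autoImplicit false

open scoped BigOperators
open Classical

namespace Pool.Agent.RW114.TaskSuper

variable {V : Type}

/-- A rank: every vertex of `I` has a neighbour of larger rank, and the rank is `m` outside. -/
theorem rank (G : SimpleGraph V) : ∀ (k : ℕ) (I : Set V), I.Finite → I.ncard = k → Esc G I →
    ∃ (m : ℕ) (s : V → ℕ), (∀ x, s x ≤ m) ∧ (∀ x, x ∉ I → s x = m) ∧
      ∀ y ∈ I, ∃ x, G.Adj y x ∧ s y < s x := by
  intro k
  induction k with
  | zero =>
    intro I hI hk _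
    rw [Set.ncard_eq_zero hI] at hk
    subst hk
    exact ⟨0, fun _ => 0, fun _ => le_rfl, fun _ _ => rfl, fun y hy => absurd hy (Set.notMem_empty y)⟩
  | succ k ih =>
    intro I hI hk hE
    have hne : I.Nonempty := by
      rw [Set.nonempty_iff_ne_empty]
      rintro rfl
      simp at hk
    obtain ⟨x₀, hx₀, y₀, hy₀, hadj⟩ := hE I subset_rfl hne
    obtain ⟨m, s, h1, h2, h3⟩ := ih (I \ {x₀}) (hI.subset Set.sdiff_subset)
      (by rw [Set.ncard_sdiff_singleton_of_mem hx₀, hk]; rfl)
      (fun D hD hn => hE D (hD.trans Set.sdiff_subset) hn)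
    refine ⟨m + 1, fun x => if x ∈ I then s x else m + 1, ?_, ?_, ?_⟩
    · intro x
      dsimp only
      have := h1 x
      split_ifs <;> omega
    · intro x hx
      simp [hx]
    · intro y hy
      by_cases hyx : y = x₀
      · subst hyx
        refine ⟨y₀, hadj, ?_⟩
        have := h1 y
        simp only [hy₀, hy, if_true, if_false]
        omega
      · obtain ⟨x, hx, hsx⟩ := h3 y ⟨hy, hyx⟩
        refine ⟨x, hx, ?_⟩
        simp only [hy, if_true]
        have := h1 x
        split_ifs <;> omega

/-- The potential. -/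
def pot (B c : ℕ) : ℕ → ℕ
  | 0 => 0
  | (i + 1) => B * pot B c i + c

theorem pot_mono (B c : ℕ) (hB : 1 ≤ B) : Monotone (pot B c) := by
  apply monotone_nat_of_le_succ
  intro n
  show pot B c n ≤ B * pot B c n + c
  nlinarith [Nat.zero_le (pot B c n)]

theorem main (hT : Pool.Agent.RW114.TaskE) : Pool.Agent.RW114.TaskSuper := by
  intro V G _ τ a I n ρ hso hI hesc
  obtain ⟨-, -, -, hsum, hlow⟩ := hT V G τ ρ
  obtain ⟨m, s, h1, h2, h3⟩ := rank G _ I hI rfl hesc
  obtain ⟨B, hB1, hB⟩ : ∃ B, 1 ≤ B ∧ ∀ y ∈ I, G.degree y ≤ B := by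
    refine ⟨(hI.toFinset.sup fun y => G.degree y) + 1, by omega, ?_⟩
    intro y hy
    have := Finset.le_sup (f := fun y => G.degree y) (hI.mem_toFinset.mpr hy)
    exact this.trans (Nat.le_succ _)
  set c := n + B * B with hc
  set P := pot B c with hP
  have hPm := pot_mono B c hB1
  -- upper bound of the number of exits
  have hup : ∀ x y h, G.Adj x y → ex G τ ρ x y (G.degree x * h) ≤ h + G.degree x := by
    intro x y h hxy
    have hd : 0 < G.degree x := by
      rw [← SimpleGraph.card_neighborFinset_eq_degree, Finset.card_pos]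
      exact ⟨y, by simpa using hxy⟩
    have hs := hsum x (G.degree x * h)
    have hmem : y ∈ G.neighborFinset x := by simpa using hxy
    rw [← Finset.add_sum_erase _ _ hmem] at hs
    have h4 : ((G.degree x : ℝ) - 1) * (h - 1) ≤
        ∑ z ∈ (G.neighborFinset x).erase y, (ex G τ ρ x z (G.degree x * h) : ℝ) := by
      have h5 : ∀ z ∈ (G.neighborFinset x).erase y,
          ((h : ℝ) - 1) ≤ (ex G τ ρ x z (G.degree x * h) : ℝ) := by
        intro z hz
        have hz' : G.Adj x z := by
          have := Finset.mem_of_mem_erase hz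
          simpa using this
        have h6 := (hlow hso x z (G.degree x * h) hz').1
        have h7 : ((G.degree x * h : ℕ) : ℝ) / G.degree x = h := by
          push_cast
          field_simp
        rw [h7] at h6
        exact h6
      have h8 := Finset.card_nsmul_le_sum _ _ _ h5
      rw [Finset.card_erase_of_mem hmem, SimpleGraph.card_neighborFinset_eq_degree,
        nsmul_eq_mul, Nat.cast_sub hd] at h8
      simpa using h8
    have h9 : (ex G τ ρ x y (G.degree x * h) : ℝ) +
        ∑ z ∈ (G.neighborFinset x).erase y, (ex G τ ρ x z (G.degree x * h) : ℝ) =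
        G.degree x * h := by
      exact_mod_cast hs
    have h10 : (ex G τ ρ x y (G.degree x * h) : ℝ) ≤ h + G.degree x := by nlinarith
    exact_mod_cast h10
  refine ⟨fun x => G.degree x * (P m - P (s x)), ?_⟩
  intro y hy
  obtain ⟨x₀, hx₀, hsx⟩ := h3 y hy
  unfold arr
  beta_reduce
  have hmem : x₀ ∈ G.neighborFinset y := by simpa using hx₀
  -- bound of each summand
  have h4 : ∀ x ∈ G.neighborFinset y,
      (if x ∈ I then ex G τ ρ x y (G.degree x * (P m - P (s x))) else 0) ≤
        (P m - P (s x)) + B := by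
    intro x hx
    split_ifs with hxI
    · have hxy : G.Adj x y := by
        have : G.Adj y x := by simpa using hx
        exact this.symm
      exact (hup x y _ hxy).trans (Nat.add_le_add_left (hB x hxI) _)
    · exact Nat.zero_le _
  have h5 : ∑ x ∈ G.neighborFinset y,
      (if x ∈ I then ex G τ ρ x y (G.degree x * (P m - P (s x))) else 0) ≤
      ∑ x ∈ G.neighborFinset y, ((P m - P (s x)) + B) := Finset.sum_le_sum h4
  have h6 : ∑ x ∈ G.neighborFinset y, ((P m - P (s x)) + B) =
      ∑ x ∈ G.neighborFinset y, (P m - P (s x)) + G.degree y * B := by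
    rw [Finset.sum_add_distrib, Finset.sum_const, SimpleGraph.card_neighborFinset_eq_degree,
      smul_eq_mul]
  have h7 : ∑ x ∈ G.neighborFinset y, (P m - P (s x)) + P (s x₀) ≤ G.degree y * P m := by
    rw [← Finset.add_sum_erase _ _ hmem]
    have h8 : ∑ x ∈ (G.neighborFinset y).erase x₀, (P m - P (s x)) ≤ (G.degree y - 1) * P m := by
      have := Finset.sum_le_card_nsmul ((G.neighborFinset y).erase x₀) (fun x => P m - P (s x))
        (P m) (fun x _ => Nat.sub_le _ _)
      rwa [Finset.card_erase_of_mem hmem, SimpleGraph.card_neighborFinset_eq_degree,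
        smul_eq_mul] at this
    have h9 : P (s x₀) ≤ P m := hPm (h1 x₀)
    have hd : 0 < G.degree y := by
      rw [← SimpleGraph.card_neighborFinset_eq_degree, Finset.card_pos]
      exact ⟨x₀, hmem⟩
    have h10 : G.degree y * P m = (G.degree y - 1) * P m + P m := by
      obtain ⟨d, hd'⟩ : ∃ d, G.degree y = d + 1 := ⟨G.degree y - 1, by omega⟩
      rw [hd', Nat.add_sub_cancel]
      ring
    omega
  have h8 : B * P (s y) + c ≤ P (s x₀) := by
    have h9 : P (s y + 1) ≤ P (s x₀) := hPm hsx
    exact h9
  have h9 : G.degree y * (P m - P (s y)) + G.degree y * P (s y) = G.degree y * P m := by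
    rw [← Nat.mul_add, Nat.sub_add_cancel (hPm (h1 y))]
  have h10 : G.degree y * P (s y) ≤ B * P (s y) := Nat.mul_le_mul_right _ (hB y hy)
  have h11 : G.degree y * B ≤ B * B := Nat.mul_le_mul_right _ (hB y hy)
  have h12 : (if y = a then n else 0) ≤ n := by split_ifs <;> omega
  omega

end Pool.Agent.RW114.TaskSuper
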