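import Pool.Agent.RW114.Stmts

/-!
# RW114, TaskWalk: super-solutions in infinite volume bound the successive walks
-/

set_option autoImplicit false

open scoped BigOperators ENNReal
open MeasureTheory Filter Topology Classical

namespace Pool.Agent.RW114.TaskWalk

open Pool.Agent.RW114

variable {V : Type} (G : SimpleGraph V) (τ : ∀ x, Equiv.Perm (G.neighborSet x)) (a : V)
  (ρ : Conf G)

/-- number of exits from `x` before time `t` -/
noncomputable def cnt (t : ℕ) (x : V) : ℕ :=
  ((Finset.range t).filter fun s => (walk G τ a ρ s).2 = x).card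

lemma cnt_succ (t : ℕ) (x : V) :
    cnt G τ a ρ (t+1) x = cnt G τ a ρ t x + if (walk G τ a ρ t).2 = x then 1 else 0 := by
  unfold cnt
  rw [Finset.range_add_one, Finset.filter_insert]
  split_ifs with h
  · rw [Finset.card_insert_of_notMem (by simp)]
  · simp

lemma ex_succ (x y : V) (k : ℕ) : ex G τ ρ x y (k+1) = ex G τ ρ x y k +
    if (((τ x ^ (k + 1)) (ρ x) : G.neighborSet x) : V) = y then 1 else 0 := by
  unfold ex
  rw [Finset.range_add_one, Finset.filter_insert]
  split_ifs with h
  · rw [Finset.card_insert_of_notMem (by simp)]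
  · simp

lemma walk_succ (t : ℕ) : walk G τ a ρ (t+1) = step G τ (walk G τ a ρ t) :=
  Function.iterate_succ_apply' _ _ _

lemma walk_fst (t : ℕ) : (walk G τ a ρ t).1 = fire G τ ρ (cnt G τ a ρ t) := by
  induction t with
  | zero => funext x; simp [walk, fire, cnt]
  | succ t ih =>
    rw [walk_succ]
    funext x
    unfold step
    simp only
    by_cases hx : x = (walk G τ a ρ t).2
    · subst hx
      rw [Function.update_self, ih]
      simp only [fire]
      rw [cnt_succ, if_pos rfl, pow_succ']
      rfl
    · rw [Function.update_of_ne hx, ih]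
      simp only [fire]
      rw [cnt_succ, if_neg (fun h => hx h.symm), add_zero]

lemma walk_snd (t : ℕ) : (walk G τ a ρ (t+1)).2 =
    (((τ (walk G τ a ρ t).2 ^ (cnt G τ a ρ t (walk G τ a ρ t).2 + 1))
      (ρ (walk G τ a ρ t).2) : G.neighborSet _) : V) := by
  rw [walk_succ]
  unfold step
  simp only
  rw [walk_fst]
  simp only [fire]
  rw [pow_succ']
  rfl

lemma walk_adj (t : ℕ) : G.Adj (walk G τ a ρ t).2 (walk G τ a ρ (t+1)).2 := by
  rw [walk_snd]
  exact Subtype.prop (p := fun z => z ∈ G.neighborSet (walk G τ a ρ t).2) _

lemma balance [G.LocallyFinite] (t : ℕ) (y : V) :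
    cnt G τ a ρ t y + (if (walk G τ a ρ t).2 = y then 1 else 0) =
      (if y = a then 1 else 0) + ∑ x ∈ G.neighborFinset y, ex G τ ρ x y (cnt G τ a ρ t x) := by
  induction t with
  | zero => simp [cnt, walk, ex, eq_comm]
  | succ t ih =>
    have h1 : ∀ x, ex G τ ρ x y (cnt G τ a ρ (t+1) x) = ex G τ ρ x y (cnt G τ a ρ t x) +
        if x = (walk G τ a ρ t).2 ∧ (walk G τ a ρ (t+1)).2 = y then 1 else 0 := by
      intro x
      rw [cnt_succ]
      by_cases hx : x = (walk G τ a ρ t).2
      · subst hx
        rw [if_pos rfl, ex_succ, ← walk_snd]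
        simp
      · rw [if_neg (fun h => hx h.symm), if_neg (fun h => hx h.1)]
        simp
    have h2 : ∑ x ∈ G.neighborFinset y,
        (if x = (walk G τ a ρ t).2 ∧ (walk G τ a ρ (t+1)).2 = y then 1 else 0) =
        if (walk G τ a ρ (t+1)).2 = y then 1 else 0 := by
      by_cases h : (walk G τ a ρ (t+1)).2 = y
      · have hadj := (walk_adj G τ a ρ t).symm
        rw [h] at hadj
        simp only [h, and_true, if_true]
        rw [Finset.sum_ite_eq' , if_pos]
        simpa using hadj
      · simp [h]
    simp only [h1, Finset.sum_add_distrib]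
    rw [h2, cnt_succ]
    omega

theorem main (hE : TaskE) : Pool.Agent.RW114.TaskWalk := by
  intro V G _ τ a n
  induction n with
  | zero => intro ρ v _ x; simp [S]
  | succ n ih =>
    intro ρ v hv x
    obtain ⟨hmono, hadd, hfire, -, -⟩ := hE V G τ ρ
    have hle : ∀ t y, cnt G τ a ρ t y ≤ v y := by
      intro t
      induction t with
      | zero => intro y; simp [cnt]
      | succ t iht =>
        intro y
        rw [cnt_succ]
        split_ifs with h
        · have := balance G τ a ρ t y
          rw [if_pos h] at this
          rw [this]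
          refine le_trans ?_ (hv y trivial)
          unfold arr
          simp only [Set.mem_univ, if_true]
          refine add_le_add ?_ (Finset.sum_le_sum fun x _ => hmono x y _ _ (iht x))
          split_ifs <;> omega
        · simpa using iht y
    have htr : Transient G τ a ρ := by
      intro y
      by_contra hinf
      obtain ⟨s, hs, hcard⟩ := Set.Infinite.exists_subset_card_eq hinf (v y + 1)
      have hsub : s ⊆ (Finset.range (s.sup id + 1)).filter fun t => (walk G τ a ρ t).2 = y := by
        intro t ht
        rw [Finset.mem_filter, Finset.mem_range]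
        exact ⟨Nat.lt_succ_of_le (Finset.le_sup (f := id) ht), hs ht⟩
      have h1 := Finset.card_le_card hsub
      have h2 := hle (s.sup id + 1) y
      unfold cnt at h2
      omega
    have hev : ∀ y, ∀ᶠ t in atTop, cnt G τ a ρ t y = visits G τ a ρ y ∧
        (walk G τ a ρ t).2 ≠ y := by
      intro y
      have hf := htr y
      obtain ⟨T, hT⟩ := hf.bddAbove
      filter_upwards [eventually_gt_atTop T] with t ht
      constructor
      · unfold cnt visits
        rw [← Set.ncard_coe_finset]
        congr 1
        ext s
        simp only [Finset.coe_filter, Finset.mem_range, Set.mem_setOf_eq, and_iff_right_iff_imp]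
        intro hs
        exact lt_of_le_of_lt (hT hs) ht
      · intro h
        exact absurd (hT h) (not_le.2 ht)
    have hfin : final G τ a ρ = fire G τ ρ (visits G τ a ρ) := by
      funext y
      have ev : ∀ᶠ t in atTop, (walk G τ a ρ t).1 y = (τ y ^ visits G τ a ρ y) (ρ y) := by
        filter_upwards [hev y] with t ht
        rw [walk_fst]
        simp only [fire]
        rw [ht.1]
      have hex : ∃ w, ∀ᶠ t in atTop, (walk G τ a ρ t).1 y = w := ⟨_, ev⟩
      unfold final
      rw [dif_pos hex]
      obtain ⟨t, h3, h4⟩ := (ev.and hex.choose_spec).exists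
      exact h4.symm.trans h3
    have hU : ∀ y, visits G τ a ρ y = (if y = a then 1 else 0) +
        ∑ x ∈ G.neighborFinset y, ex G τ ρ x y (visits G τ a ρ x) := by
      intro y
      have h1 : ∀ᶠ t in atTop, ∀ x ∈ G.neighborFinset y,
          cnt G τ a ρ t x = visits G τ a ρ x ∧ (walk G τ a ρ t).2 ≠ x :=
        (Filter.eventually_all_finset (G.neighborFinset y)).2 fun x _ => hev x
      obtain ⟨t, h2, h3⟩ := ((hev y).and h1).exists
      have h4 := balance G τ a ρ t y
      rw [if_neg h2.2, add_zero, h2.1] at h4
      rw [h4]
      congr 1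
      exact Finset.sum_congr rfl fun x hx => by rw [(h3 x hx).1]
    have hUle : ∀ y, visits G τ a ρ y ≤ v y := by
      intro y
      obtain ⟨t, ht⟩ := (hev y).exists
      rw [← ht.1]
      exact hle t y
    have hsup : Super G τ a Set.univ n (fire G τ ρ (visits G τ a ρ))
        (fun y => v y - visits G τ a ρ y) := by
      intro y _
      have h1 := hv y trivial
      have h2 := hU y
      unfold arr at h1 ⊢
      simp only [Set.mem_univ, if_true] at h1 ⊢
      have h3 : ∀ x, ex G τ ρ x y (v x) = ex G τ ρ x y (visits G τ a ρ x) +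
          ex G τ (fire G τ ρ (visits G τ a ρ)) x y (v x - visits G τ a ρ x) := by
        intro x
        rw [← hadd, Nat.add_sub_cancel' (hUle x)]
      simp only [h3, Finset.sum_add_distrib] at h1
      split_ifs at h1 h2 ⊢ <;> omega
    have hS := ih (fire G τ ρ (visits G τ a ρ)) _ hsup
    rw [← hfin] at hS
    have hcond : ∀ i < n, Transient G τ a ((final G τ a)^[i] (final G τ a ρ)) := by
      by_contra hcon
      have h1 := hS x
      unfold S at h1
      rw [if_neg hcon] at h1
      simp at h1
    have hSx := hS x
    unfold S at hSx ⊢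
    rw [if_pos hcond] at hSx
    rw [if_pos]
    · rw [Finset.sum_range_succ']
      simp only [Function.iterate_succ_apply, Function.iterate_zero, id]
      calc _ ≤ ((v x - visits G τ a ρ x : ℕ) : ℝ≥0∞) + (visits G τ a ρ x : ℝ≥0∞) := by
            gcongr
        _ = (v x : ℝ≥0∞) := by
            rw [← Nat.cast_add, Nat.sub_add_cancel (hUle x)]
    · intro i hi
      rcases i with _ | i
      · simpa using htr
      · rw [Function.iterate_succ_apply]
        exact hcond i (by omega)

end Pool.Agent.RW114.TaskWalk
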