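import Pool.Agent.RW114.Stmts

set_option autoImplicit false

open scoped BigOperators ENNReal
open MeasureTheory Filter Topology Classical

namespace Pool.Agent.RW114.TaskWeak

theorem main (hBall : Pool.Agent.RW114.TaskBall) (hForest : Pool.Agent.RW114.TaskForest) :
    Pool.Agent.RW114.TaskWeak := by
  intro V G _ a hG hV μ hμ hO R' R₀ A c hc hA hb
  obtain ⟨hfin, -⟩ := hBall V G a hG hV
  have hne : Nonempty (Conf G) := nonempty_of_isProbabilityMeasure μ
  obtain ⟨η₀⟩ := hne
  obtain ⟨W, hmemW⟩ : ∃ W : Finset V, ∀ x, x ∈ W ↔ G.dist a x < R' :=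
    ⟨(hfin R').toFinset, fun x => by simp⟩
  -- extension of patterns
  let ex : (∀ x : W, G.neighborSet x.1) → Conf G :=
    fun p x => if h : x ∈ W then p ⟨x, h⟩ else η₀ x
  have hex : ∀ (p : ∀ x : W, G.neighborSet x.1) (x : V) (h : x ∈ W), ex p x = p ⟨x, h⟩ := by
    intro p x h
    simp only [ex, dif_pos h]
  let cyl : Conf G → Set (Conf G) := fun η => {ρ | ∀ x ∈ W, ρ x = η x}
  have hcyl : ∀ η, MeasurableSet (cyl η) := by
    intro η
    have : cyl η = ⋂ x ∈ W, {ρ : Conf G | ρ x = η x} := by
      ext ρ; simp [cyl]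
    rw [this]
    refine Finset.measurableSet_biInter _ fun x _ => ?_
    have h1 : @Measurable (Conf G) (G.neighborSet x) (confMS G) ⊤ (fun ρ => ρ x) :=
      @measurable_pi_apply V (fun x => G.neighborSet x) (fun _ => ⊤) x
    exact h1 (MeasurableSpace.measurableSet_top (s := {η x}))
  let Q : Finset (∀ x : W, G.neighborSet x.1) := Finset.univ.filter (fun p => ex p ∈ A)
  have hAeq : A = ⋃ p ∈ Q, cyl (ex p) := by
    ext ρ
    simp only [Set.mem_iUnion, exists_prop]
    constructor
    · intro hρ
      refine ⟨fun x => ρ x.1, ?_, ?_⟩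
      · simp only [Q, Finset.mem_filter, Finset.mem_univ, true_and]
        refine (hA _ _ ?_).1 hρ
        intro x hx
        exact (hex (fun x => ρ x.1) x ((hmemW x).2 hx)).symm
      · intro x hx
        exact (hex (fun x => ρ x.1) x hx).symm
    · rintro ⟨p, hp, hρ⟩
      simp only [Q, Finset.mem_filter, Finset.mem_univ, true_and] at hp
      refine (hA _ _ ?_).2 hp
      intro x hx
      exact hρ x ((hmemW x).2 hx)
  have hmeas : MeasurableSet A := by
    rw [hAeq]
    exact Finset.measurableSet_biUnion _ fun p _ => hcyl _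
  refine ⟨hmeas, ?_⟩
  -- the limit
  have hlim : Tendsto (fun R : ℕ => ∑ p ∈ Q,
      (({f | f ∈ Forests G a R ∧ ∀ x : Inner G a R, x.1 ∈ W → f x = ex p x.1}.ncard
      : ℝ) / (Forests G a R).ncard)) atTop (𝓝 (∑ p ∈ Q, μ.real (cyl (ex p)))) :=
    tendsto_finsetSum _ fun p _ => hO W (ex p)
  have hle : ∑ p ∈ Q, μ.real (cyl (ex p)) ≤ c := by
    refine le_of_tendsto hlim ?_
    filter_upwards [eventually_ge_atTop (max R₀ R')] with R hR
    have hR0 : R₀ ≤ R := le_trans (le_max_left _ _) hR
    have hR' : R' ≤ R := le_trans (le_max_right _ _) hR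
    haveI : Finite (Inner G a R) := (hfin R).to_subtype
    haveI : Finite (∀ x : Inner G a R, G.neighborSet x.1) := Pi.finite
    haveI : Fintype (∀ x : Inner G a R, G.neighborSet x.1) := Fintype.ofFinite _
    have h1 := hForest V G a hG hV R η₀ A (fun ρ ρ' h => hA ρ ρ'
      (fun x hx => h x (lt_of_lt_of_le hx hR')))
    have h2 := hForest V G a hG hV R η₀ Set.univ (fun ρ ρ' _ => by simp)
    have h3 : {f | f ∈ Forests G a R ∧ ∃ ρ ∈ (Set.univ : Set (Conf G)),
        ∀ x : Inner G a R, f x = ρ x.1} = Forests G a R := by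
      ext f
      simp only [Set.mem_setOf_eq, Set.mem_univ, true_and, and_iff_left_iff_imp]
      intro _
      refine ⟨fun x => if h : G.dist a x < R then f ⟨x, h⟩ else η₀ x, ?_⟩
      intro x
      have := x.2
      simp only [dif_pos this]
    rw [h3, Set.inter_univ] at h2
    have h4 := hb R hR0 hR' η₀
    rw [← h1, ← h2] at h4
    have h5 : ∑ p ∈ Q, {f | f ∈ Forests G a R ∧
        ∀ x : Inner G a R, x.1 ∈ W → f x = ex p x.1}.ncard ≤
        {f | f ∈ Forests G a R ∧ ∃ ρ ∈ A, ∀ x : Inner G a R, f x = ρ x.1}.ncard := by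
      have e1 : ∀ p, {f | f ∈ Forests G a R ∧
          ∀ x : Inner G a R, x.1 ∈ W → f x = ex p x.1}.ncard =
          (Finset.univ.filter (fun f => f ∈ Forests G a R ∧
          ∀ x : Inner G a R, x.1 ∈ W → f x = ex p x.1)).card := by
        intro p
        rw [Set.ncard_eq_toFinset_card', Set.toFinset_setOf]
      have e2 : {f | f ∈ Forests G a R ∧ ∃ ρ ∈ A, ∀ x : Inner G a R, f x = ρ x.1}.ncard =
          (Finset.univ.filter (fun f => f ∈ Forests G a R ∧
            ∃ ρ ∈ A, ∀ x : Inner G a R, f x = ρ x.1)).card := by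
        rw [Set.ncard_eq_toFinset_card', Set.toFinset_setOf]
      rw [e2, Finset.sum_congr rfl (fun p _ => e1 p), ← Finset.card_biUnion]
      · refine Finset.card_le_card ?_
        intro f hf
        rw [Finset.mem_biUnion] at hf
        obtain ⟨p, hp, hf⟩ := hf
        simp only [Finset.mem_filter, Finset.mem_univ, true_and] at hf ⊢
        refine ⟨hf.1, fun x => if h : G.dist a x < R then f ⟨x, h⟩ else η₀ x, ?_, ?_⟩
        · simp only [Q, Finset.mem_filter, Finset.mem_univ, true_and] at hp
          refine (hA _ _ ?_).2 hp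
          intro x hx
          have hx2 : G.dist a x < R := lt_of_lt_of_le hx hR'
          simp only [dif_pos hx2]
          exact hf.2 ⟨x, hx2⟩ ((hmemW x).2 hx)
        · intro x
          have := x.2
          simp only [dif_pos this]
      · intro p hp q hq hpq
        rw [Function.onFun, Finset.disjoint_left]
        intro f hf hf'
        simp only [Finset.mem_filter, Finset.mem_univ, true_and] at hf hf'
        apply hpq
        funext x
        have hx : G.dist a x.1 < R := lt_of_lt_of_le ((hmemW x.1).1 x.2) hR'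
        have e1 := hf.2 ⟨x.1, hx⟩ x.2
        have e2 := hf'.2 ⟨x.1, hx⟩ x.2
        rw [hex p x.1 x.2] at e1
        rw [hex q x.1 x.2] at e2
        exact e1.symm.trans e2
    rw [← Finset.sum_div]
    have h6 : (∑ p ∈ Q, ({f | f ∈ Forests G a R ∧
        ∀ x : Inner G a R, x.1 ∈ W → f x = ex p x.1}.ncard : ℝ)) ≤
        c * (Forests G a R).ncard := by
      refine le_trans ?_ h4
      exact_mod_cast h5
    exact div_le_of_le_mul₀ (Nat.cast_nonneg _) hc h6
  have hμA : μ.real A ≤ c := by
    refine le_trans ?_ hle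
    conv_lhs => rw [hAeq]
    exact measureReal_biUnion_finset_le _ _
  rw [← ofReal_measureReal (measure_ne_top μ A)]
  exact ENNReal.ofReal_le_ofReal hμA

end Pool.Agent.RW114.TaskWeak
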