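import Pool.Agent.RW114.Stmts

/-!
# Project RW114: summability at the start vertex gives summability everywhere
-/

set_option autoImplicit false

namespace Pool.Agent.RW114.Trans

open Pool.Agent.RW114

variable {V : Type}

lemma prob_nonneg (G : SimpleGraph V) [G.LocallyFinite] (a : V) (t : ℕ) (x : V) :
    0 ≤ prob G a t x := by
  induction t generalizing x with
  | zero => simp only [prob]; split_ifs <;> norm_num
  | succ t ih =>
    simp only [prob]
    exact Finset.sum_nonneg fun y _ => div_nonneg (ih y) (Nat.cast_nonneg _)

lemma summable_adj (G : SimpleGraph V) [G.LocallyFinite] (a x y : V) (h : G.Adj x y)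
    (hy : Summable fun t => prob G a t y) : Summable fun t => prob G a t x := by
  have h1 : Summable fun t => (G.degree x : ℝ) * prob G a (t + 1) y :=
    ((summable_nat_add_iff 1).2 hy).mul_left _
  refine Summable.of_nonneg_of_le (fun t => prob_nonneg G a t x) (fun t => ?_) h1
  have hd : (0 : ℝ) < G.degree x := by
    exact_mod_cast (G.degree_pos_iff_exists_adj x).2 ⟨y, h⟩
  have h2 : prob G a t x / G.degree x ≤ prob G a (t + 1) y := by
    simp only [prob]
    exact Finset.single_le_sum (f := fun x => prob G a t x / (G.degree x : ℝ))
      (fun z _ => div_nonneg (prob_nonneg G a t z) (Nat.cast_nonneg _))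
      ((G.mem_neighborFinset y x).2 h.symm)
  rw [div_le_iff₀ hd] at h2
  linarith

theorem summable_all (G : SimpleGraph V) [G.LocallyFinite] (hG : G.Connected) (a : V)
    (h : Summable fun t => prob G a t a) : ∀ x, Summable fun t => prob G a t x := by
  intro x
  obtain ⟨w⟩ := hG.preconnected x a
  induction w with
  | nil => exact h
  | cons hadj _ ih => exact summable_adj G _ _ _ hadj (ih h)

end Pool.Agent.RW114.Trans
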